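import Pool.Agent.Helper845_Sec.Defs

/-!
# Algebraic lemmas: elements integral over both `L[t]` and `L[1/t]`
-/

namespace Pool.Agent.Helper845_Sec

open Polynomial

/-- the coefficients of the minimal polynomial of an element integral over `L[u]` are in `L[u]` -/
theorem coeff_minpoly_mem {L E Ω : Type*} [Field L] [Field E] [Field Ω] [Algebra L E]
    [Algebra E Ω] (u : E) (hu : Transcendental L u)
    (htop : IntermediateField.adjoin L {u} = ⊤) (x : Ω)
    (hx : ((algebraMap E Ω).comp (aeval u : L[X] →ₐ[L] E).toRingHom).IsIntegralElem x) (n : ℕ) :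
    ∃ p : L[X], (minpoly E x).coeff n = aeval u p := by
  let _ : Algebra L[X] E := (aeval u : L[X] →ₐ[L] E).toRingHom.toAlgebra
  let _ : Algebra L[X] Ω :=
    ((algebraMap E Ω).comp (aeval u : L[X] →ₐ[L] E).toRingHom).toAlgebra
  have : IsScalarTower L[X] E Ω := IsScalarTower.of_algebraMap_eq fun _ => rfl
  have hinj : Function.Injective (aeval u : L[X] →ₐ[L] E) := transcendental_iff_injective.mp hu
  have : IsFractionRing L[X] E := by
    have : FaithfulSMul L[X] E := by
      rw [faithfulSMul_iff_algebraMap_injective]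
      exact hinj
    apply IsFractionRing.of_field
    intro z
    have hz : z ∈ IntermediateField.adjoin L {u} := by
      rw [htop]
      trivial
    obtain ⟨r, s, hrs⟩ := (IntermediateField.mem_adjoin_simple_iff L z).mp hz
    exact ⟨r, s, hrs⟩
  have hxi : IsIntegral L[X] x := hx
  rw [minpoly.isIntegrallyClosed_eq_field_fractions' E hxi, Polynomial.coeff_map]
  exact ⟨_, rfl⟩

/-- `L[t] ∩ L[1/t] = L` -/
theorem mem_of_mem_inv {L E : Type*} [Field L] [Field E] [Algebra L E] {t : E}
    (ht : Transcendental L t) {p q : L[X]} (h : aeval t p = aeval t⁻¹ q) :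
    ∃ a : L, aeval t p = algebraMap L E a := by
  have hinj : Function.Injective (aeval t : L[X] →ₐ[L] E) := transcendental_iff_injective.mp ht
  have ht0 : t ≠ 0 := by
    rintro rfl
    exact ht isAlgebraic_zero
  have h1 : aeval t (p * X ^ q.natDegree) = aeval t q.reverse := by
    let _ : Invertible t⁻¹ := invertibleOfNonzero (inv_ne_zero ht0)
    have h2 := eval₂_reverse_mul_pow (algebraMap L E) t⁻¹ q
    rw [invOf_eq_inv, inv_inv] at h2
    rw [map_mul, map_pow, aeval_X, h, aeval_def, aeval_def, ← h2, mul_assoc, ← mul_pow,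
      inv_mul_cancel₀ ht0, one_pow, mul_one]
  have h2 := hinj h1
  have h3 : p.natDegree = 0 := by
    by_cases hp : p = 0
    · rw [hp, natDegree_zero]
    · have h4 := congrArg natDegree h2
      rw [natDegree_mul hp (pow_ne_zero _ X_ne_zero), natDegree_X_pow] at h4
      have h5 := reverse_natDegree_le q
      omega
  obtain ⟨a, rfl⟩ := natDegree_eq_zero.mp h3
  exact ⟨a, aeval_C _ _⟩

/-- an element which is integral over `L[t]` and over `L[1/t]` is integral over `L` -/
theorem integral_of_both {L E Ω : Type*} [Field L] [Field E] [Field Ω] [Algebra L E]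
    [Algebra E Ω] [Algebra L Ω] [IsScalarTower L E Ω] (t : E) (ht : Transcendental L t)
    (htop : IntermediateField.adjoin L {t} = ⊤) (x : Ω)
    (h1 : ((algebraMap E Ω).comp (aeval t : L[X] →ₐ[L] E).toRingHom).IsIntegralElem x)
    (h2 : ((algebraMap E Ω).comp (aeval t⁻¹ : L[X] →ₐ[L] E).toRingHom).IsIntegralElem x) :
    IsIntegral L x := by
  have ht' : Transcendental L t⁻¹ := fun h => ht (by simpa using h.inv)
  have htop' : IntermediateField.adjoin L {t⁻¹} = ⊤ := by
    rw [eq_top_iff, ← htop, IntermediateField.adjoin_simple_le_iff]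
    have h3 := IntermediateField.mem_adjoin_simple_self L t⁻¹
    have h4 := inv_mem h3
    rwa [inv_inv] at h4
  have hint : IsIntegral E x := by
    obtain ⟨p, hp, hpx⟩ := h1
    refine ⟨p.map (aeval t : L[X] →ₐ[L] E).toRingHom, hp.map _, ?_⟩
    rw [eval₂_map]
    exact hpx
  have hc : ∀ n, ∃ a : L, (minpoly E x).coeff n = algebraMap L E a := by
    intro n
    obtain ⟨p, hp⟩ := coeff_minpoly_mem t ht htop x h1 n
    obtain ⟨q, hq⟩ := coeff_minpoly_mem t⁻¹ ht' htop' x h2 n
    obtain ⟨a, ha⟩ := mem_of_mem_inv ht (hp.symm.trans hq)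
    exact ⟨a, hp.trans ha⟩
  have hl : minpoly E x ∈ Polynomial.lifts (algebraMap L E) := by
    rw [Polynomial.lifts_iff_coeff_lifts]
    intro n
    obtain ⟨a, ha⟩ := hc n
    exact ⟨a, ha.symm⟩
  obtain ⟨q, hq, -, hqm⟩ := Polynomial.lifts_and_natDegree_eq_and_monic hl (minpoly.monic hint)
  refine ⟨q, hqm, ?_⟩
  rw [IsScalarTower.algebraMap_eq L E Ω, ← eval₂_map, hq]
  exact minpoly.aeval E x

/-- comparison of coefficients with respect to a transcendental element, for coefficients which
are algebraic over the field `L` -/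
theorem coeff_eq_of_integral {L Ω : Type*} [Field L] [Field Ω] [Algebra L Ω] {t : Ω}
    (ht : Transcendental L t) {n : ℕ} (x y : Fin n → Ω) (hx : ∀ j, IsIntegral L (x j))
    (hy : ∀ j, IsIntegral L (y j)) (h : ∑ j, x j * t ^ (j : ℕ) = ∑ j, y j * t ^ (j : ℕ)) :
    x = y := by
  let A := algebraicClosure L Ω
  have hz : ∀ j, x j - y j ∈ A := fun j => by
    rw [mem_algebraicClosure_iff]
    exact ((hx j).sub (hy j)).isAlgebraic
  let p : A[X] := ∑ j : Fin n, C ⟨x j - y j, hz j⟩ * X ^ (j : ℕ)
  have hp : aeval t p = 0 := by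
    rw [map_sum]
    have h1 : ∀ j : Fin n, aeval t (C (⟨x j - y j, hz j⟩ : A) * X ^ (j : ℕ)) =
        x j * t ^ (j : ℕ) - y j * t ^ (j : ℕ) := by
      intro j
      rw [map_mul, map_pow, aeval_X, aeval_C, ← sub_mul]
      rfl
    rw [Finset.sum_congr rfl fun j _ => h1 j, Finset.sum_sub_distrib, h, sub_self]
  have htA : Transcendental A t := by
    intro h1
    apply ht
    have : Algebra.IsAlgebraic L A := algebraicClosure.isAlgebraic L Ω
    exact IsAlgebraic.restrictScalars L h1
  have hp0 : p = 0 := by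
    by_contra hne
    exact htA ⟨p, hne, hp⟩
  funext j
  have h1 : p.coeff j = ⟨x j - y j, hz j⟩ := by
    simp only [p, finsetSum_coeff, coeff_C_mul, coeff_X_pow]
    rw [Finset.sum_eq_single j]
    · simp
    · intro i _ hij
      rw [if_neg, mul_zero]
      intro h
      exact hij (Fin.ext h.symm)
    · intro h
      exact absurd (Finset.mem_univ j) h
  rw [hp0, coeff_zero] at h1
  have h2 := congrArg (Subtype.val) h1
  exact (sub_eq_zero.mp h2.symm)

/-- elements of `E` algebraic over the subfield `K` and fixed by all embeddings over `K` of the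
field which they generate are in `K` -/
theorem mem_of_fixed {K E Ω κ : Type*} [Field K] [Field E] [Field Ω] [Algebra K E] [Algebra E Ω]
    [Algebra K Ω] [IsScalarTower K E Ω] [CharZero K] [IsAlgClosed Ω] (c : κ → E)
    (hc : ∀ k, IsIntegral K (c k))
    (hfix : ∀ σ : IntermediateField.adjoin K (Set.range c) →ₐ[K] Ω, ∀ k,
      σ ⟨c k, IntermediateField.subset_adjoin K _ ⟨k, rfl⟩⟩ = algebraMap E Ω (c k)) (k : κ) :
    ∃ a : K, algebraMap K E a = c k := by
  let E' := IntermediateField.adjoin K (Set.range c)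
  have hE' : Algebra.IsAlgebraic K E' := by
    apply IntermediateField.isAlgebraic_adjoin
    rintro _ ⟨j, rfl⟩
    exact hc j
  let x : E' := ⟨c k, IntermediateField.subset_adjoin K _ ⟨k, rfl⟩⟩
  have h1 := Algebra.IsAlgebraic.range_eval_eq_rootSet_minpoly (F := K) (K := E') Ω x
  have h2 : (minpoly K x).rootSet Ω ⊆ {algebraMap E Ω (c k)} := by
    rw [← h1]
    rintro _ ⟨σ, rfl⟩
    exact hfix σ k
  have hxi : IsIntegral K x := (hE'.isAlgebraic x).isIntegral
  have h3 : (minpoly K x).Separable := (minpoly.irreducible hxi).separable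
  have h4 := Polynomial.card_rootSet_eq_natDegree h3 (K := Ω) (IsAlgClosed.splits _)
  have h5 : (minpoly K x).natDegree ≤ 1 := by
    rw [← h4, Fintype.card_le_one_iff]
    rintro ⟨a, ha⟩ ⟨b, hb⟩
    have h6 := h2 ha
    have h7 := h2 hb
    rw [Set.mem_singleton_iff] at h6 h7
    exact Subtype.ext (h6.trans h7.symm)
  have h6 : (minpoly K x).natDegree = 1 :=
    le_antisymm h5 (minpoly.natDegree_pos hxi)
  obtain ⟨a, ha⟩ := minpoly.natDegree_eq_one_iff.mp h6
  exact ⟨a, congrArg Subtype.val ha⟩

end Pool.Agent.Helper845_Sec
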