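import Pool.Agent.Helper845_Sec.Alg
import Pool.Agent.Helper845_Sec.Fld

/-!
# Generic injectivity of the evaluation maps, abstract version
-/

namespace Pool.Agent.Helper845_Sec

open MvPolynomial

section forms

variable {ι : Type}

/-- the linear forms given by the evaluation at `(t, 1)` -/
noncomputable def formA (d : ℕ) (i : ι) : MvPolynomial (ι × Fin (d + 1)) (Polynomial ℂ) :=
  ∑ j : Fin (d + 1), C (Polynomial.X ^ (j : ℕ)) * X (i, j)

/-- the linear forms given by the evaluation at `(1, t)` -/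
noncomputable def formB (d : ℕ) (i : ι) : MvPolynomial (ι × Fin (d + 1)) (Polynomial ℂ) :=
  ∑ j : Fin (d + 1), C (Polynomial.X ^ (d - (j : ℕ))) * X (i, j)

theorem formA_homog (d : ℕ) (i : ι) : (formA d i).IsHomogeneous 1 :=
  IsHomogeneous.sum _ _ _ fun _ _ => isHomogeneous_C_mul_X _ _

theorem formB_homog (d : ℕ) (i : ι) : (formB d i).IsHomogeneous 1 :=
  IsHomogeneous.sum _ _ _ fun _ _ => isHomogeneous_C_mul_X _ _

theorem eval_formA {R : Type*} [CommRing R] (g : Polynomial ℂ →+* R) {d : ℕ}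
    (x : ι × Fin (d + 1) → R) (i : ι) :
    eval₂ g x (formA d i) = ∑ j : Fin (d + 1), g Polynomial.X ^ (j : ℕ) * x (i, j) := by
  rw [← coe_eval₂Hom, formA, map_sum]
  refine Finset.sum_congr rfl fun j _ => ?_
  rw [map_mul, coe_eval₂Hom, eval₂_C, eval₂_X, map_pow]

theorem eval_formB {R : Type*} [CommRing R] (g : Polynomial ℂ →+* R) {d : ℕ}
    (x : ι × Fin (d + 1) → R) (i : ι) :
    eval₂ g x (formB d i) = ∑ j : Fin (d + 1), g Polynomial.X ^ (d - (j : ℕ)) * x (i, j) := by
  rw [← coe_eval₂Hom, formB, map_sum]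
  refine Finset.sum_congr rfl fun j _ => ?_
  rw [map_mul, coe_eval₂Hom, eval₂_C, eval₂_X, map_pow]

theorem ev_t_one {d : ℕ} (c : ι × Fin (d + 1) → ℂ) (t : ℂ) (i : ι) :
    ev c ![t, 1] i = ∑ j : Fin (d + 1), t ^ (j : ℕ) * c (i, j) := by
  rw [ev]
  refine Finset.sum_congr rfl fun j _ => ?_
  simp
  ring

theorem ev_one_t {d : ℕ} (c : ι × Fin (d + 1) → ℂ) (t : ℂ) (i : ι) :
    ev c ![1, t] i = ∑ j : Fin (d + 1), t ^ (d - (j : ℕ)) * c (i, j) := by
  rw [ev]
  refine Finset.sum_congr rfl fun j _ => ?_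
  simp
  ring

theorem formA_zeros {d : ℕ} {M : Set (ι × Fin (d + 1) → ℂ)}
    (h0 : ∀ c ∈ M, ∀ b : Fin 2 → ℂ, b ≠ 0 → ev c b ≠ 0) :
    ∀ c ∈ M, ∀ t : ℂ, ∃ i : ι, eval₂ (Polynomial.evalRingHom t) c (formA d i) ≠ 0 := by
  intro c hc t
  by_contra hcon
  push Not at hcon
  apply h0 c hc ![t, 1] (fun h => one_ne_zero (congrFun h 1))
  funext i
  have := hcon i
  rw [eval_formA] at this
  rw [ev_t_one]
  simpa using this

theorem formB_zeros {d : ℕ} {M : Set (ι × Fin (d + 1) → ℂ)}
    (h0 : ∀ c ∈ M, ∀ b : Fin 2 → ℂ, b ≠ 0 → ev c b ≠ 0) :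
    ∀ c ∈ M, ∀ t : ℂ, ∃ i : ι, eval₂ (Polynomial.evalRingHom t) c (formB d i) ≠ 0 := by
  intro c hc t
  by_contra hcon
  push Not at hcon
  apply h0 c hc ![1, t] (fun h => one_ne_zero (congrFun h 0))
  funext i
  have := hcon i
  rw [eval_formB] at this
  rw [ev_one_t]
  simpa using this

end forms

section abs

variable {ι : Type} [Finite ι]

/-- a point `x` over a big field, which satisfies the equations of `M` and has the same value at
the generic point `t` of the projective line as the point `c` over `L`, is equal to `c` -/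
theorem point_unique {d : ℕ} {M : Set (ι × Fin (d + 1) → ℂ)} (hM : ProjClosed M)
    (h0 : ∀ c ∈ M, ∀ b : Fin 2 → ℂ, b ≠ 0 → ev c b ≠ 0)
    {L E Ω : Type*} [Field L] [Field E] [Field Ω] [Algebra ℂ L] [Algebra ℂ Ω] [Algebra L E]
    [Algebra E Ω] [Algebra L Ω] [IsScalarTower L E Ω] [IsScalarTower ℂ L Ω]
    (t : E) (ht : Transcendental L t) (htop : IntermediateField.adjoin L {t} = ⊤)
    (c : ι × Fin (d + 1) → L) (x : ι × Fin (d + 1) → Ω)
    (hx : ∀ G ∈ (vanishingIdeal ℂ M : Ideal (MvPolynomial (ι × Fin (d + 1)) ℂ)), aeval x G = 0)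
    (hval : ∀ i, ∑ j : Fin (d + 1), algebraMap E Ω t ^ (j : ℕ) * x (i, j) =
      ∑ j : Fin (d + 1), algebraMap E Ω t ^ (j : ℕ) * algebraMap L Ω (c (i, j)))
    (k : ι × Fin (d + 1)) : x k = algebraMap L Ω (c k) := by
  have ht0 : t ≠ 0 := by
    rintro rfl
    exact ht isAlgebraic_zero
  have hτ0 : algebraMap E Ω t ≠ 0 := by
    rw [Ne, map_eq_zero]
    exact ht0
  let ρ : Polynomial ℂ →+* Polynomial L := Polynomial.mapRingHom (algebraMap ℂ L)
  have hρ : ∀ u : E, ((((algebraMap E Ω).comp
      (Polynomial.aeval u : Polynomial L →ₐ[L] E).toRingHom).comp ρ).comp Polynomial.C) =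
      algebraMap ℂ Ω := by
    intro u
    ext a
    simp [ρ, ← IsScalarTower.algebraMap_apply]
  have hX : ∀ u : E, (((algebraMap E Ω).comp
      (Polynomial.aeval u : Polynomial L →ₐ[L] E).toRingHom).comp ρ) Polynomial.X =
      algebraMap E Ω u := by
    intro u
    simp [ρ]
  have hg : ∀ (u : E) (a : L) (n : ℕ), ((algebraMap E Ω).comp
      (Polynomial.aeval u : Polynomial L →ₐ[L] E).toRingHom)
        (Polynomial.C a * Polynomial.X ^ n) = algebraMap E Ω u ^ n * algebraMap L Ω a := by
    intro u a n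
    change algebraMap E Ω (Polynomial.aeval u (Polynomial.C a * Polynomial.X ^ n)) = _
    rw [map_mul, map_pow, Polynomial.aeval_X, Polynomial.aeval_C, map_mul, map_pow,
      ← IsScalarTower.algebraMap_apply, mul_comm]
  have hA : ∀ k, ((algebraMap E Ω).comp
      (Polynomial.aeval t : Polynomial L →ₐ[L] E).toRingHom).IsIntegralElem (x k) := by
    refine integral_of_eval hM (formA d) (formA_homog d) (formA_zeros h0) _ ρ (hρ t) x hx
      (fun i => ∑ j : Fin (d + 1), Polynomial.C (c (i, j)) * Polynomial.X ^ (j : ℕ)) ?_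
    intro i
    rw [eval_formA, hX, hval, map_sum]
    exact Finset.sum_congr rfl fun j _ => (hg _ _ _).symm
  have hB : ∀ k, ((algebraMap E Ω).comp
      (Polynomial.aeval t⁻¹ : Polynomial L →ₐ[L] E).toRingHom).IsIntegralElem (x k) := by
    refine integral_of_eval hM (formB d) (formB_homog d) (formB_zeros h0) _ ρ (hρ t⁻¹) x hx
      (fun i => ∑ j : Fin (d + 1), Polynomial.C (c (i, j)) * Polynomial.X ^ (d - (j : ℕ))) ?_
    intro i
    rw [eval_formB, hX, map_sum, map_inv₀]
    have h1 : ∀ z : Fin (d + 1) → Ω, ∑ j : Fin (d + 1), (algebraMap E Ω t)⁻¹ ^ (d - (j : ℕ)) * z j =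
        (algebraMap E Ω t)⁻¹ ^ d * ∑ j : Fin (d + 1), algebraMap E Ω t ^ (j : ℕ) * z j := by
      intro z
      rw [Finset.mul_sum]
      refine Finset.sum_congr rfl fun j _ => ?_
      have hj : (j : ℕ) ≤ d := Nat.lt_succ_iff.mp j.2
      rw [← mul_assoc, pow_sub₀ _ (inv_ne_zero hτ0) hj, inv_pow _ (j : ℕ), inv_inv]
    rw [h1, hval, ← h1 fun j => algebraMap L Ω (c (i, j))]
    refine Finset.sum_congr rfl fun j _ => ?_
    rw [← map_inv₀]
    exact (hg _ _ _).symm
  have hint : ∀ k, IsIntegral L (x k) := fun k => integral_of_both t ht htop (x k) (hA k) (hB k)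
  have htΩ : Transcendental L (algebraMap E Ω t) :=
    (transcendental_algebraMap_iff (algebraMap E Ω).injective).mpr ht
  obtain ⟨i, j⟩ := k
  have h2 := coeff_eq_of_integral htΩ (fun j => x (i, j)) (fun j => algebraMap L Ω (c (i, j)))
    (fun j => hint (i, j)) (fun j => isIntegral_algebraMap) (by
      have h3 := hval i
      simp_rw [mul_comm (algebraMap E Ω t ^ _)] at h3
      exact h3)
  exact congrFun h2 j

/-- the coordinates of the generic point `c` are rational functions of the generic point `t` of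
the projective line and the value of the section at `t` -/
theorem generic_mem {d : ℕ} {M : Set (ι × Fin (d + 1) → ℂ)} (hM : ProjClosed M)
    (h0 : ∀ c ∈ M, ∀ b : Fin 2 → ℂ, b ≠ 0 → ev c b ≠ 0)
    {L E Ω : Type*} [Field L] [Field E] [Field Ω] [Algebra ℂ L] [Algebra ℂ E] [Algebra ℂ Ω]
    [Algebra L E] [Algebra E Ω] [Algebra L Ω] [IsScalarTower L E Ω] [IsScalarTower ℂ L Ω]
    [IsScalarTower ℂ L E] [IsScalarTower ℂ E Ω] [IsAlgClosed Ω]
    (t : E) (ht : Transcendental L t) (htop : IntermediateField.adjoin L {t} = ⊤)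
    (c : ι × Fin (d + 1) → L)
    (hc : ∀ G ∈ (vanishingIdeal ℂ M : Ideal (MvPolynomial (ι × Fin (d + 1)) ℂ)), aeval c G = 0)
    (k : ι × Fin (d + 1)) :
    algebraMap L E (c k) ∈ IntermediateField.adjoin ℂ (Set.range fun o : Option ι =>
      o.elim t fun i => ∑ j : Fin (d + 1), t ^ (j : ℕ) * algebraMap L E (c (i, j))) := by
  set v : Option ι → E := fun o => o.elim t fun i => ∑ j : Fin (d + 1),
    t ^ (j : ℕ) * algebraMap L E (c (i, j)) with hv
  let K : IntermediateField ℂ E := IntermediateField.adjoin ℂ (Set.range v)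
  have hvK : ∀ o, v o ∈ K := fun o => IntermediateField.subset_adjoin ℂ _ ⟨o, rfl⟩
  have : CharZero K := algebraRat.charZero K
  let cE : ι × Fin (d + 1) → E := fun k => algebraMap L E (c k)
  have hcE : ∀ G ∈ (vanishingIdeal ℂ M : Ideal (MvPolynomial (ι × Fin (d + 1)) ℂ)),
      aeval cE G = 0 := by
    intro G hG
    have h1 : aeval cE G = algebraMap L E (aeval c G) := by
      rw [← MvPolynomial.aeval_algebraMap_apply]
      rfl
    rw [h1, hc G hG, map_zero]
  -- the coordinates are integral over `K`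
  have hint : ∀ k, IsIntegral K (cE k) := by
    refine integral_of_eval hM (formA d) (formA_homog d) (formA_zeros h0) (algebraMap K E)
      (Polynomial.aeval (⟨t, hvK none⟩ : K) : Polynomial ℂ →ₐ[ℂ] K).toRingHom ?_ cE hcE
      (fun i => ⟨v (some i), hvK (some i)⟩) ?_
    · ext a
      simp only [AlgHom.toRingHom_eq_coe, RingHom.coe_comp, RingHom.coe_coe, Function.comp_apply,
        Polynomial.aeval_C]
      rfl
    · intro i
      rw [eval_formA]
      simp only [AlgHom.toRingHom_eq_coe, RingHom.coe_comp, RingHom.coe_coe, Function.comp_apply,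
        Polynomial.aeval_X]
      rfl
  obtain ⟨a, ha⟩ : ∃ a : K, algebraMap K E a = cE k := by
    refine mem_of_fixed (Ω := Ω) cE hint ?_ k
    intro σ
    let E' := IntermediateField.adjoin K (Set.range cE)
    let c' : ι × Fin (d + 1) → E' := fun k =>
      ⟨cE k, IntermediateField.subset_adjoin K _ ⟨k, rfl⟩⟩
    have htower : IsScalarTower ℂ E' E := IsScalarTower.of_algebraMap_eq fun _ => rfl
    have h5 : ∀ k, σ (c' k) = algebraMap L Ω (c k) := by
      refine point_unique hM h0 t ht htop c (fun k => σ (c' k)) ?_ ?_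
      · intro G hG
        have h1 : aeval c' G = 0 := by
          apply (algebraMap E' E).injective
          rw [map_zero, ← hcE G hG, ← MvPolynomial.aeval_algebraMap_apply]
          rfl
        have h2 : aeval (fun k => σ (c' k)) G = σ (aeval c' G) := by
          have h3 : (aeval (fun k => σ (c' k)) : MvPolynomial _ ℂ →ₐ[ℂ] Ω) =
              (σ.restrictScalars ℂ).comp (aeval c') := by
            ext k
            simp
          rw [h3]
          rfl
        rw [h2, h1, map_zero]
      · intro i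
        have h1 : ∑ j : Fin (d + 1), algebraMap K E' ⟨t, hvK none⟩ ^ (j : ℕ) * c' (i, j) =
            algebraMap K E' ⟨v (some i), hvK (some i)⟩ := by
          apply (algebraMap E' E).injective
          rw [map_sum]
          change _ = v (some i)
          rw [hv]
          refine Finset.sum_congr rfl fun j _ => ?_
          rw [map_mul, map_pow]
          rfl
        have h2 := congrArg σ h1
        rw [map_sum, σ.commutes] at h2
        have h3 : ∑ j : Fin (d + 1), algebraMap E Ω t ^ (j : ℕ) * σ (c' (i, j)) =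
            algebraMap E Ω (v (some i)) := by
          refine Eq.trans ?_ h2
          refine Finset.sum_congr rfl fun j _ => ?_
          rw [map_mul, map_pow, σ.commutes]
          rfl
        rw [h3, hv]
        change algebraMap E Ω (∑ j : Fin (d + 1), t ^ (j : ℕ) * algebraMap L E (c (i, j))) = _
        rw [map_sum]
        refine Finset.sum_congr rfl fun j _ => ?_
        rw [map_mul, map_pow, ← IsScalarTower.algebraMap_apply]
    intro k
    exact (h5 k).trans (IsScalarTower.algebraMap_apply L E Ω (c k))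
  have h1 : algebraMap L E (c k) = (a : E) := ha.symm
  rw [h1]
  exact a.2

end abs

end Pool.Agent.Helper845_Sec
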