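import Pool.Agent.Helper845_Sec.Image

/-!
# Algebraic lemmas: integrality over polynomial rings
-/

namespace Pool.Agent.Helper845_Sec

open MvPolynomial

section null

variable {κ ι : Type} [Finite κ] [Finite ι]

omit [Finite κ] in
theorem eval_optionEquivRight (v : Option κ → ℂ) (q : MvPolynomial (Option κ) ℂ) :
    eval₂ (Polynomial.evalRingHom (v none)) (fun k => v (some k)) (optionEquivRight ℂ κ q) =
      eval v q := by
  induction q using MvPolynomial.induction_on with
  | C a => rw [optionEquivRight_C, eval₂_C, eval_C]; simp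
  | add p q hp hq => rw [map_add, eval₂_add, hp, hq, map_add]
  | mul_X p k hp =>
    have h1 : eval₂ (Polynomial.evalRingHom (v none)) (fun k => v (some k))
        (optionEquivRight ℂ κ (X k)) = v k := by
      cases k with
      | none => rw [optionEquivRight_X_none, eval₂_C]; simp
      | some k => rw [optionEquivRight_X_some, eval₂_X]
    rw [map_mul, eval₂_mul, hp, map_mul, eval_X, h1]

/-- the ideal of `M` in the polynomial ring with polynomial coefficients -/
noncomputable def bigIdeal (M : Set (κ → ℂ)) : Ideal (MvPolynomial κ (Polynomial ℂ)) :=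
  (vanishingIdeal ℂ M : Ideal (MvPolynomial κ ℂ)).map (MvPolynomial.map Polynomial.C)

omit [Finite κ] in
theorem comp_map {R S : Type*} [CommRing R] [CommRing S] (f : R →+* S) (F : MvPolynomial κ R)
    (n : ℕ) : homogeneousComponent n (MvPolynomial.map f F) =
      MvPolynomial.map f (homogeneousComponent n F) := by
  classical
  ext d
  rw [coeff_homogeneousComponent, coeff_map, coeff_map, coeff_homogeneousComponent]
  split_ifs
  · rfl
  · exact (map_zero f).symm

omit [Finite κ] in
theorem comp_mem_bigIdeal {M : Set (κ → ℂ)} (hM : ProjClosed M)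
    {r : MvPolynomial κ (Polynomial ℂ)} (hr : r ∈ bigIdeal M) (n : ℕ) :
    homogeneousComponent n r ∈ bigIdeal M := by
  classical
  let _ : GradedAlgebra (homogeneousSubmodule κ (Polynomial ℂ)) := MvPolynomial.gradedAlgebra
  have h1 : bigIdeal M = Ideal.span {G | ∃ F ∈ (vanishingIdeal ℂ M : Ideal (MvPolynomial κ ℂ)),
      ∃ n, G = MvPolynomial.map Polynomial.C (homogeneousComponent n F)} := by
    apply le_antisymm
    · rw [bigIdeal, Ideal.map_le_iff_le_comap]
      intro F hF
      rw [Ideal.mem_comap, ← sum_homogeneousComponent F, map_sum]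
      exact Ideal.sum_mem _ fun i _ => Ideal.subset_span ⟨F, hF, i, rfl⟩
    · rw [Ideal.span_le]
      rintro _ ⟨F, hF, n, rfl⟩
      exact Ideal.mem_map_of_mem _ (vanishingIdeal_comp hM hF n)
  have h2 : (bigIdeal M).IsHomogeneous (homogeneousSubmodule κ (Polynomial ℂ)) := by
    rw [h1]
    apply Ideal.homogeneous_span
    rintro _ ⟨F, hF, n, rfl⟩
    exact ⟨n, (homogeneousComponent_isHomogeneous n F).map _⟩
  have h3 := h2 n hr
  convert h3 using 1
  exact (decomposition.decompose'_apply r n).symm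

/-- the Nullstellensatz for linear forms with polynomial coefficients without common zeros on a
closed set -/
theorem exists_rel_poly {M : Set (κ → ℂ)} (hM : ProjClosed M)
    (F : ι → MvPolynomial κ (Polynomial ℂ)) (hF : ∀ i, (F i).IsHomogeneous 1)
    (h0 : ∀ c ∈ M, ∀ t : ℂ, ∃ i, eval₂ (Polynomial.evalRingHom t) c (F i) ≠ 0) :
    ∃ m : ℕ, 1 ≤ m ∧ ∀ k : κ, ∃ h : ι → MvPolynomial κ (Polynomial ℂ),
      (∀ i, (h i).IsHomogeneous (m - 1)) ∧ X k ^ m - ∑ᶠ i, h i * F i ∈ bigIdeal M := by
  classical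
  have := Fintype.ofFinite κ
  have := Fintype.ofFinite ι
  let J : Ideal (MvPolynomial κ (Polynomial ℂ)) := Ideal.span (Set.range F) ⊔ bigIdeal M
  have hJ : ∀ k : κ, (X k : MvPolynomial κ (Polynomial ℂ)) ∈ J.radical := by
    intro k
    rw [Ideal.radical_eq_jacobson, Ideal.jacobson, Ideal.mem_sInf]
    rintro 𝔪 ⟨hJ𝔪, h𝔪⟩
    let e := optionEquivRight ℂ κ
    let 𝔪' : Ideal (MvPolynomial (Option κ) ℂ) := 𝔪.comap e
    have h𝔪' : 𝔪'.IsMaximal := Ideal.comap_isMaximal_of_surjective _ e.surjective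
    obtain ⟨v, hv⟩ := isMaximal_iff_eq_vanishingIdeal_singleton.mp h𝔪'
    have hmem : ∀ p, p ∈ 𝔪 ↔
        eval₂ (Polynomial.evalRingHom (v none)) (fun k => v (some k)) p = 0 := by
      intro p
      obtain ⟨q, rfl⟩ := e.surjective p
      rw [eval_optionEquivRight, ← aeval_eq_eval, ← mem_vanishingIdeal_singleton_iff, ← hv]
      exact Iff.rfl
    rw [hmem, eval₂_X]
    by_contra hk
    have hcM : (fun k => v (some k)) ∈ M := by
      apply mem_of_vanishing hM
      · intro h
        exact hk (congrFun h k)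
      · intro G hG
        have h1 : MvPolynomial.map Polynomial.C G ∈ 𝔪 :=
          hJ𝔪 (Ideal.mem_sup_right (Ideal.mem_map_of_mem _ hG))
        have h2 : (Polynomial.evalRingHom (v none)).comp Polynomial.C = RingHom.id ℂ := by
          ext a
          simp
        rw [hmem, eval₂_map, h2] at h1
        exact h1
    obtain ⟨i, hi⟩ := h0 _ hcM (v none)
    apply hi
    rw [← hmem]
    exact hJ𝔪 (Ideal.mem_sup_left (Ideal.subset_span ⟨i, rfl⟩))
  choose e he using hJ
  let m : ℕ := 1 + ∑ k, e k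
  refine ⟨m, Nat.le_add_right _ _, fun k => ?_⟩
  have hek : e k ≤ m := le_trans (Finset.single_le_sum (f := e) (fun _ _ => Nat.zero_le _)
    (Finset.mem_univ k)) (Nat.le_add_left _ _)
  have hXm : (X k : MvPolynomial κ (Polynomial ℂ)) ^ m ∈ J := J.pow_mem_of_pow_mem (he k) hek
  obtain ⟨a, ha, r, hr, har⟩ := Submodule.mem_sup.mp hXm
  obtain ⟨c, hc⟩ := Ideal.mem_span_range_iff_exists_fun.mp ha
  refine ⟨fun i => homogeneousComponent (m - 1) (c i),
    fun i => homogeneousComponent_isHomogeneous _ _, ?_⟩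
  have h1 : (X k : MvPolynomial κ (Polynomial ℂ)) ^ m =
      ∑ i, homogeneousComponent (m - 1) (c i) * F i + homogeneousComponent m r := by
    have h2 : homogeneousComponent m ((X k : MvPolynomial κ (Polynomial ℂ)) ^ m) = X k ^ m := by
      apply homogeneousComponent_eq_self
      exact isHomogeneous_X_pow k m
    have h3 : ∀ i, homogeneousComponent m (c i * F i) =
        homogeneousComponent (m - 1) (c i) * F i :=
      fun i => comp_mul_homog (hF i) (Nat.le_add_right _ _)
    rw [← h2, ← har, map_add, ← hc, map_sum, Finset.sum_congr rfl fun i _ => h3 i]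
  rw [h1, finsum_eq_sum_of_fintype, add_sub_cancel_left]
  exact comp_mem_bigIdeal hM hr m

/-- integrality of the coordinates of a point over the ring generated by the values of the
forms -/
theorem integral_of_eval {M : Set (κ → ℂ)} (hM : ProjClosed M)
    (F : ι → MvPolynomial κ (Polynomial ℂ)) (hF : ∀ i, (F i).IsHomogeneous 1)
    (h0 : ∀ c ∈ M, ∀ t : ℂ, ∃ i, eval₂ (Polynomial.evalRingHom t) c (F i) ≠ 0)
    {A Ω : Type*} [CommRing A] [CommRing Ω] [Algebra ℂ Ω] (g : A →+* Ω) (ρ : Polynomial ℂ →+* A)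
    (hρ : (g.comp ρ).comp Polynomial.C = algebraMap ℂ Ω) (x : κ → Ω)
    (hx : ∀ G ∈ (vanishingIdeal ℂ M : Ideal (MvPolynomial κ ℂ)), aeval x G = 0) (y : ι → A)
    (hy : ∀ i, eval₂ (g.comp ρ) x (F i) = g (y i)) (k : κ) : g.IsIntegralElem (x k) := by
  classical
  have := Fintype.ofFinite ι
  obtain ⟨m, hm, hrel⟩ := exists_rel_poly hM F hF h0
  let _ : Algebra A Ω := g.toAlgebra
  have hI : ∀ r ∈ bigIdeal M, eval₂ (g.comp ρ) x r = 0 := by
    intro r hr
    have h1 : bigIdeal M ≤ RingHom.ker (eval₂Hom (g.comp ρ) x) := by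
      rw [bigIdeal, Ideal.map_le_iff_le_comap]
      intro G hG
      rw [Ideal.mem_comap, RingHom.mem_ker, coe_eval₂Hom, eval₂_map, hρ]
      exact hx G hG
    exact h1 hr
  refine integral_of_rel x m (fun k => ?_) k
  obtain ⟨h, hh, hv⟩ := hrel k
  refine ⟨∑ i, C (y i) * MvPolynomial.map ρ (h i), ?_, ?_⟩
  · refine lt_of_le_of_lt (totalDegree_finsetSum _ _) ?_
    rw [Finset.sup_lt_iff (by rw [Nat.bot_eq_zero]; omega)]
    intro i _
    refine lt_of_le_of_lt (totalDegree_mul _ _) ?_
    have h1 : (MvPolynomial.map ρ (h i)).totalDegree ≤ m - 1 :=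
      ((hh i).map _).totalDegree_le
    rw [totalDegree_C]
    omega
  · have h1 := hI _ hv
    rw [finsum_eq_sum_of_fintype, ← coe_eval₂Hom, map_sub, map_pow, sub_eq_zero, map_sum,
      coe_eval₂Hom, eval₂_X] at h1
    rw [h1, map_sum]
    refine Finset.sum_congr rfl fun i _ => ?_
    rw [eval₂_mul, hy, map_mul, aeval_C, mul_comm]
    congr 1
    rw [aeval_def, eval₂_map]
    rfl

end null

end Pool.Agent.Helper845_Sec
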