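import Pool.Agent.Helper845_Sec.Image

/-!
# Families of binary forms
-/

namespace Pool.Agent.Helper845_Sec

open MvPolynomial Topology

variable {κ ι : Type}

/-- the coefficient family of a family of polynomials in one variable -/
noncomputable def ofPoly (p : κ → Polynomial ℂ) (e : ℕ) : κ × Fin (e + 1) → ℂ :=
  fun x => (p x.1).coeff x.2

theorem ev_ofPoly (p : κ → Polynomial ℂ) (e : ℕ) (s : Fin 2 → ℂ) (k : κ) :
    ev (ofPoly p e) s k = eval s ((p k).homogenize e) := by
  rw [ev, Polynomial.homogenize, map_sum, Finset.Nat.sum_antidiagonal_eq_sum_range_succ_mk,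
    Finset.sum_range]
  refine Finset.sum_congr rfl fun j _ => ?_
  rw [eval_monomial, ofPoly, Finsupp.prod_fintype _ _ (fun i => pow_zero _), Fin.prod_univ_two]
  simp
  ring

/-- the polynomials in one variable of a family of binary forms -/
noncomputable def toPoly {e : ℕ} (φ : κ × Fin (e + 1) → ℂ) (k : κ) : Polynomial ℂ :=
  ∑ j : Fin (e + 1), Polynomial.monomial (j : ℕ) (φ (k, j))

theorem coeff_toPoly {e : ℕ} (φ : κ × Fin (e + 1) → ℂ) (k : κ) (j : Fin (e + 1)) :
    (toPoly φ k).coeff j = φ (k, j) := by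
  rw [toPoly, Polynomial.finsetSum_coeff, Finset.sum_eq_single j]
  · rw [Polynomial.coeff_monomial, if_pos rfl]
  · intro i _ hij
    rw [Polynomial.coeff_monomial, if_neg]
    intro h
    exact hij (Fin.ext h)
  · intro h
    exact absurd (Finset.mem_univ j) h

theorem natDegree_toPoly {e : ℕ} (φ : κ × Fin (e + 1) → ℂ) (k : κ) :
    (toPoly φ k).natDegree ≤ e := by
  refine Polynomial.natDegree_sum_le_of_forall_le _ _ fun j _ => ?_
  exact (Polynomial.natDegree_monomial_le _).trans (Nat.lt_succ_iff.mp j.2)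

theorem ofPoly_toPoly {e : ℕ} (φ : κ × Fin (e + 1) → ℂ) : ofPoly (toPoly φ) e = φ := by
  funext x
  obtain ⟨k, j⟩ := x
  exact coeff_toPoly φ k j

/-- the binary forms of a family -/
noncomputable def form {e : ℕ} (φ : κ × Fin (e + 1) → ℂ) (k : κ) : MvPolynomial (Fin 2) ℂ :=
  (toPoly φ k).homogenize e

theorem form_homog {e : ℕ} (φ : κ × Fin (e + 1) → ℂ) (k : κ) : (form φ k).IsHomogeneous e :=
  Polynomial.isHomogeneous_homogenize _

theorem ev_eq_form {e : ℕ} (φ : κ × Fin (e + 1) → ℂ) (s : Fin 2 → ℂ) (k : κ) :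
    ev φ s k = eval s (form φ k) := by
  conv_lhs => rw [← ofPoly_toPoly φ]
  exact ev_ofPoly _ _ _ _

theorem ev_smul {e : ℕ} (φ : κ × Fin (e + 1) → ℂ) (a : ℂ) (s : Fin 2 → ℂ) :
    ev φ (a • s) = a ^ e • ev φ s := by
  funext k
  rw [ev_eq_form, eval_smul_homog (form_homog φ k), Pi.smul_apply, smul_eq_mul, ev_eq_form]

/-- a family of homogeneous polynomials of degree `n` in two variables is a family of binary
forms -/
theorem exists_ev (n : ℕ) (F : κ → MvPolynomial (Fin 2) ℂ) (hF : ∀ k, (F k).IsHomogeneous n) :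
    ∃ φ : κ × Fin (n + 1) → ℂ, ∀ s k, ev φ s k = eval s (F k) := by
  refine ⟨ofPoly (fun k => aeval ![Polynomial.X, 1] (F k)) n, fun s k => ?_⟩
  rw [ev_ofPoly, Polynomial.homogenize_eq_of_isHomogeneous (hF k) rfl]

theorem eval_comp {e : ℕ} (φ : κ × Fin (e + 1) → ℂ) (F : MvPolynomial κ ℂ) (s : Fin 2 → ℂ) :
    eval s (aeval (form φ) F) = eval (ev φ s) F := by
  rw [eval_aeval]
  congr 2
  funext k
  exact (ev_eq_form φ s k).symm

/-- composition of homogeneous polynomials and binary forms -/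
theorem exists_comp {e : ℕ} (φ : κ × Fin (e + 1) → ℂ) (D : ℕ) (A : ι → MvPolynomial κ ℂ)
    (hA : ∀ i, (A i).IsHomogeneous D) :
    ∃ (n : ℕ) (Φ : ι × Fin (n + 1) → ℂ), ∀ s i, ev Φ s i = eval (ev φ s) (A i) := by
  obtain ⟨Φ, hΦ⟩ := exists_ev (e * D) (fun i => aeval (form φ) (A i))
    (fun i => (hA i).aeval _ (form_homog φ))
  exact ⟨_, Φ, fun s i => (hΦ s i).trans (eval_comp φ (A i) s)⟩

theorem ev_zero_iff {e : ℕ} (φ : κ × Fin (e + 1) → ℂ) : (∀ s, ev φ s = 0) ↔ φ = 0 := by
  constructor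
  · intro h
    funext x
    obtain ⟨k, j⟩ := x
    have h1 : form φ k = 0 := by
      apply MvPolynomial.funext
      intro s
      rw [← ev_eq_form, h s, map_zero]
      rfl
    have h2 : toPoly φ k = 0 :=
      (Polynomial.homogenize_eq_zero_iff (natDegree_toPoly φ k)).mp h1
    rw [← coeff_toPoly φ k j, h2, Polynomial.coeff_zero]
    rfl
  · rintro rfl s
    funext k
    simp [ev]

theorem eval_homogenize {p : Polynomial ℂ} {n : ℕ} (hn : p.natDegree ≤ n) {s : Fin 2 → ℂ}
    (hs : s 1 ≠ 0) : eval s (p.homogenize n) = s 1 ^ n * p.eval (s 0 / s 1) := by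
  have h1 : s = s 1 • ![s 0 / s 1, 1] := by
    funext i
    fin_cases i
    · simp [mul_div_cancel₀ _ hs]
    · simp
  conv_lhs => rw [h1]
  rw [eval_smul_homog (Polynomial.isHomogeneous_homogenize p)]
  congr 1
  have h2 := Polynomial.aeval_homogenize_of_eq_one (A := ℂ) hn ![s 0 / s 1, 1] (by simp)
  simpa using h2

theorem eval_homogenize_zero (p : Polynomial ℂ) (n : ℕ) {s : Fin 2 → ℂ}
    (hs : s 1 = 0) : eval s (p.homogenize n) = p.coeff n * s 0 ^ n := by
  rw [← ev_ofPoly (fun _ : Unit => p) n s (), ev, Finset.sum_eq_single (Fin.last n)]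
  · simp [ofPoly]
  · intro j _ hj
    have : n - (j : ℕ) ≠ 0 := by
      have h1 := j.2
      have h2 : (j : ℕ) ≠ n := fun h => hj (Fin.ext h)
      omega
    rw [hs, zero_pow this, mul_zero]
  · intro h
    exact absurd (Finset.mem_univ _) h

/-- division by the common zeros of a family of binary forms -/
theorem exists_primitive [Finite κ] {e : ℕ} (φ : κ × Fin (e + 1) → ℂ) (hφ : φ ≠ 0) :
    ∃ (e' : ℕ) (ψ : κ × Fin (e' + 1) → ℂ) (g : MvPolynomial (Fin 2) ℂ), e' ≤ e ∧
      g.IsHomogeneous (e - e') ∧ g ≠ 0 ∧ (∀ s : Fin 2 → ℂ, s ≠ 0 → ev ψ s ≠ 0) ∧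
      ∀ s, ev φ s = eval s g • ev ψ s := by
  classical
  have := Fintype.ofFinite κ
  let p := toPoly φ
  obtain ⟨h, hh⟩ := (IsPrincipalIdealRing.principal (Ideal.span (Set.range p))).principal
  have hp0 : ∃ k, p k ≠ 0 := by
    by_contra hcon
    push Not at hcon
    apply hφ
    funext x
    obtain ⟨k, j⟩ := x
    rw [← coeff_toPoly φ k j]
    change (p k).coeff j = _
    rw [hcon k, Polynomial.coeff_zero]
    rfl
  have hdvd : ∀ k, ∃ q, p k = h * q := by
    intro k
    have h1 : p k ∈ Ideal.span (Set.range p) := Ideal.subset_span ⟨k, rfl⟩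
    rw [hh] at h1
    exact Ideal.mem_span_singleton.mp h1
  choose q hq using hdvd
  have hh0 : h ≠ 0 := by
    rintro rfl
    obtain ⟨k, hk⟩ := hp0
    exact hk (by rw [hq k, zero_mul])
  obtain ⟨u, hu⟩ : ∃ u : κ → Polynomial ℂ, ∑ k, u k * q k = 1 := by
    have h1 : h ∈ Ideal.span (Set.range p) := by
      rw [hh]
      exact Submodule.mem_span_singleton_self h
    obtain ⟨u, hu⟩ := Ideal.mem_span_range_iff_exists_fun.mp h1
    refine ⟨u, mul_left_cancel₀ hh0 ?_⟩
    rw [mul_one, Finset.mul_sum]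
    conv_rhs => rw [← hu]
    refine Finset.sum_congr rfl fun k _ => ?_
    rw [hq k]
    ring
  -- a form of maximal degree
  have hq0 : ∃ k, q k ≠ 0 := by
    by_contra hcon
    push Not at hcon
    rw [Finset.sum_eq_zero fun k _ => by rw [hcon k, mul_zero]] at hu
    exact zero_ne_one hu
  obtain ⟨k₀, hk₀, hmax⟩ : ∃ k₀, q k₀ ≠ 0 ∧ ∀ k, (q k).natDegree ≤ (q k₀).natDegree := by
    obtain ⟨k₀, hk₀, hm⟩ := Finset.exists_max_image (Finset.univ.filter fun k => q k ≠ 0)
      (fun k => (q k).natDegree) (by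
        obtain ⟨k, hk⟩ := hq0
        exact ⟨k, Finset.mem_filter.mpr ⟨Finset.mem_univ _, hk⟩⟩)
    refine ⟨k₀, (Finset.mem_filter.mp hk₀).2, fun k => ?_⟩
    by_cases hk : q k = 0
    · rw [hk, Polynomial.natDegree_zero]
      exact Nat.zero_le _
    · exact hm k (Finset.mem_filter.mpr ⟨Finset.mem_univ _, hk⟩)
  set e' := (q k₀).natDegree with he'
  have hdeg : h.natDegree + e' ≤ e := by
    rw [he', ← Polynomial.natDegree_mul hh0 hk₀, ← hq k₀]
    exact natDegree_toPoly φ k₀
  refine ⟨e', ofPoly q e', h.homogenize (e - e'), by omega,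
    Polynomial.isHomogeneous_homogenize _, ?_, ?_, ?_⟩
  · intro h1
    exact hh0 ((Polynomial.homogenize_eq_zero_iff (by omega)).mp h1)
  · intro s hs hcon
    have h1 : ∀ k, eval s ((q k).homogenize e') = 0 := by
      intro k
      rw [← ev_ofPoly, hcon]
      rfl
    by_cases hs1 : s 1 = 0
    · have h2 := h1 k₀
      rw [eval_homogenize_zero _ _ hs1] at h2
      have hs0 : s 0 ≠ 0 := by
        intro hs0
        apply hs
        funext i
        fin_cases i
        · exact hs0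
        · exact hs1
      rw [mul_eq_zero] at h2
      rcases h2 with h2 | h2
      · exact hk₀ (Polynomial.leadingCoeff_eq_zero.mp h2)
      · exact pow_ne_zero _ hs0 h2
    · have h2 : ∀ k, (q k).eval (s 0 / s 1) = 0 := by
        intro k
        have h3 := h1 k
        rw [eval_homogenize (hmax k) hs1, mul_eq_zero] at h3
        exact h3.resolve_left (pow_ne_zero _ hs1)
      have h3 := congrArg (Polynomial.eval (s 0 / s 1)) hu
      rw [Polynomial.eval_finsetSum, Polynomial.eval_one] at h3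
      rw [Finset.sum_eq_zero fun k _ => by rw [Polynomial.eval_mul, h2 k, mul_zero]] at h3
      exact zero_ne_one h3
  · intro s
    funext k
    have h1 : form φ k = h.homogenize (e - e') * (q k).homogenize e' := by
      rw [← Polynomial.homogenize_mul _ _ (by omega) (hmax k), ← hq k, form]
      congr 1
      omega
    rw [ev_eq_form, h1, map_mul, Pi.smul_apply, smul_eq_mul, ev_ofPoly]

/-- if the values of `φ` are in the cone over a closed set then so are the values of `ψ` -/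
theorem primitive_mem {M : Set (κ → ℂ)} (hM : ProjClosed M) {e e' : ℕ} (φ : κ × Fin (e + 1) → ℂ)
    (ψ : κ × Fin (e' + 1) → ℂ) (g : MvPolynomial (Fin 2) ℂ) (hg : g ≠ 0)
    (hψ : ∀ s : Fin 2 → ℂ, s ≠ 0 → ev ψ s ≠ 0) (h : ∀ s, ev φ s = eval s g • ev ψ s)
    (hφ : ∀ s : Fin 2 → ℂ, s ≠ 0 → ev φ s ≠ 0 → ev φ s ∈ M) (s : Fin 2 → ℂ) (hs : s ≠ 0) :
    ev ψ s ∈ M := by
  obtain ⟨S, hS, rfl⟩ := hM
  refine ⟨hψ s hs, fun F hF => ?_⟩
  obtain ⟨n, hn⟩ := hS F hF
  have h1 : g * (X 0 * aeval (form ψ) F) = 0 ∧ g * (X 1 * aeval (form ψ) F) = 0 := by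
    have h2 : ∀ w : Fin 2 → ℂ, w ≠ 0 → eval w g ≠ 0 → eval w (aeval (form ψ) F) = 0 := by
      intro w hw hgw
      rw [eval_comp]
      have h3 : ev φ w ≠ 0 := by
        rw [h w]
        exact smul_ne_zero hgw (hψ w hw)
      have h4 := (hφ w hw h3).2 F hF
      rw [h w, eval_smul_homog hn, mul_eq_zero] at h4
      exact h4.resolve_left (pow_ne_zero _ hgw)
    constructor <;>
    · apply MvPolynomial.funext
      intro w
      rw [map_mul, map_mul, eval_X, map_zero]
      by_cases hw : w = 0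
      · rw [hw]
        simp
      · by_cases hgw : eval w g = 0
        · rw [hgw, zero_mul]
        · rw [h2 w hw hgw, mul_zero, mul_zero]
  have h2 : aeval (form ψ) F = 0 := by
    have h3 := h1.1
    rw [mul_eq_zero] at h3
    have h4 := h3.resolve_left hg
    rw [mul_eq_zero] at h4
    exact h4.resolve_left (X_ne_zero 0)
  rw [← eval_comp, h2, map_zero]

theorem projClosed_univ : ProjClosed {s : κ → ℂ | s ≠ 0} :=
  ⟨∅, fun _ h => h.elim, by simp⟩

theorem irred_univ [Nonempty κ] : Irred {s : κ → ℂ | s ≠ 0} := by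
  refine ⟨⟨fun _ => 1, fun h => one_ne_zero (congrFun h (Classical.arbitrary κ))⟩,
    fun v hv => hv, fun A B hA hB hAB => ?_⟩
  by_contra hcon
  push Not at hcon
  obtain ⟨S, hS, rfl⟩ := hA
  obtain ⟨T, hT, rfl⟩ := hB
  obtain ⟨v, hv, hvA⟩ := Set.not_subset.mp hcon.1
  obtain ⟨w, hw, hwB⟩ := Set.not_subset.mp hcon.2
  simp only [Set.mem_ofPred_eq, not_and, not_forall] at hvA hwB hv hw
  obtain ⟨F, hF, hFv⟩ := hvA hv
  obtain ⟨G, hG, hGw⟩ := hwB hw
  have hF0 : F ≠ 0 := by
    rintro rfl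
    exact hFv (map_zero _)
  have hG0 : G ≠ 0 := by
    rintro rfl
    exact hGw (map_zero _)
  let k : κ := Classical.arbitrary κ
  have hne : F * G * X k ≠ 0 := mul_ne_zero (mul_ne_zero hF0 hG0) (X_ne_zero k)
  obtain ⟨s, hs⟩ : ∃ s, eval s (F * G * X k) ≠ 0 := by
    by_contra h
    push Not at h
    exact hne (MvPolynomial.funext fun s => (h s).trans (map_zero _).symm)
  rw [map_mul, map_mul, eval_X] at hs
  have hs0 : s ≠ 0 := by
    rintro rfl
    exact hs (mul_zero _)
  have hFs : eval s F ≠ 0 := fun h => hs (by rw [h, zero_mul, zero_mul])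
  have hGs : eval s G ≠ 0 := fun h => hs (by rw [h, mul_zero, zero_mul])
  rcases hAB hs0 with h | h
  · exact hFs (h.2 F hF)
  · exact hGs (h.2 G hG)

/-- a rational curve of degree zero is a point -/
theorem ev_deg_zero (φ : κ × Fin (0 + 1) → ℂ) (s s' : Fin 2 → ℂ) : ev φ s = ev φ s' := by
  funext k
  simp [ev]

theorem ratCurve_pt {v : κ → ℂ} (hv : v ≠ 0) : RatCurve (pt v) := by
  refine ⟨0, fun x => v x.1, ?_, ?_⟩
  · intro s _
    have : ev (e := 0) (fun x : κ × Fin (0 + 1) => v x.1) s = v := by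
      funext k
      simp [ev]
    rw [this]
    exact hv
  · ext w
    have : ∀ s, ev (e := 0) (fun x : κ × Fin (0 + 1) => v x.1) s = v := by
      intro s
      funext k
      simp [ev]
    constructor
    · rintro ⟨a, ha, rfl⟩
      refine ⟨fun _ => 1, fun h => one_ne_zero (congrFun h 0), a, ha, ?_⟩
      rw [this]
    · rintro ⟨s, hs, a, ha, rfl⟩
      rw [this]
      exact ⟨a, ha, rfl⟩

theorem ratCurve_closed_irred [Finite κ] {R : Set (κ → ℂ)} (hR : RatCurve R) :
    ProjClosed R ∧ Irred R := by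
  obtain ⟨e, φ, h0, rfl⟩ := hR
  rcases Nat.eq_zero_or_pos e with rfl | he
  · have hs0 : (fun _ => 1 : Fin 2 → ℂ) ≠ 0 := fun h => one_ne_zero (congrFun h 0)
    have : {v | ∃ s : Fin 2 → ℂ, s ≠ 0 ∧ ∃ a : ℂ, a ≠ 0 ∧ v = a • ev φ s} =
        pt (ev φ (fun _ => 1)) := by
      ext v
      constructor
      · rintro ⟨s, -, a, ha, rfl⟩
        rw [ev_deg_zero φ s (fun _ => 1)]
        exact ⟨a, ha, rfl⟩
      · rintro ⟨a, ha, rfl⟩
        exact ⟨_, hs0, a, ha, rfl⟩
    rw [this]
    exact ⟨projClosed_pt (h0 _ hs0), irred_pt (h0 _ hs0)⟩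
  · have : {v | ∃ s : Fin 2 → ℂ, s ≠ 0 ∧ ∃ a : ℂ, a ≠ 0 ∧ v = a • ev φ s} =
        {y : κ → ℂ | ∃ v ∈ {s : Fin 2 → ℂ | s ≠ 0}, y = fun k => eval v (form φ k)} := by
      ext v
      constructor
      · rintro ⟨s, hs, a, ha, rfl⟩
        obtain ⟨μ, hμ⟩ := IsAlgClosed.exists_pow_nat_eq a he
        have hμ0 : μ ≠ 0 := by
          rintro rfl
          rw [zero_pow he.ne'] at hμ
          exact ha hμ.symm
        refine ⟨μ • s, smul_ne_zero hμ0 hs, ?_⟩
        rw [← hμ, ← ev_smul]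
        funext k
        exact ev_eq_form _ _ _
      · rintro ⟨s, hs, rfl⟩
        refine ⟨s, hs, 1, one_ne_zero, ?_⟩
        rw [one_smul]
        funext k
        exact (ev_eq_form _ _ _).symm
    rw [this]
    have hz : ∀ v ∈ {s : Fin 2 → ℂ | s ≠ 0}, ∃ k, eval v (form φ k) ≠ 0 := by
      intro v hv
      by_contra hcon
      push Not at hcon
      apply h0 v hv
      funext k
      rw [ev_eq_form, hcon k]
      rfl
    exact ⟨image_closed projClosed_univ _ he.ne' (form_homog φ) hz,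
      image_irred projClosed_univ irred_univ _ (form_homog φ) hz⟩

end Pool.Agent.Helper845_Sec
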