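import Mathlib

/-!
# Spaces of sections of families of projective varieties over the projective line: definitions

Everything is over the complex numbers and everything is classical: a point of the projective
space with coordinates indexed by a finite type `κ` is a nonzero vector `κ → ℂ` up to scalars, and
a set of points is given by the set of all vectors which represent its points.
-/

namespace Pool.Agent.Helper845_Sec

open MvPolynomial Topology

/-- Zariski closed subsets of the projective space with coordinates indexed by `κ`, as sets of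
nonzero vectors: the common zeros of a set of homogeneous polynomials -/
def ProjClosed {κ : Type} (Z : Set (κ → ℂ)) : Prop :=
  ∃ S : Set (MvPolynomial κ ℂ), (∀ F ∈ S, ∃ n : ℕ, F.IsHomogeneous n) ∧
    Z = {v | v ≠ 0 ∧ ∀ F ∈ S, eval v F = 0}

/-- A set of points of projective space (a set of nonzero vectors) is irreducible: it is nonempty,
and it is not covered by two Zariski closed sets unless one of them contains it -/
def Irred {κ : Type} (Z : Set (κ → ℂ)) : Prop :=
  Z.Nonempty ∧ (∀ v ∈ Z, v ≠ 0) ∧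
    ∀ A B : Set (κ → ℂ), ProjClosed A → ProjClosed B → Z ⊆ A ∪ B → Z ⊆ A ∨ Z ⊆ B

/-- `M` is an irreducible component of `S`: a maximal irreducible subset of `S` -/
def Component {κ : Type} (M S : Set (κ → ℂ)) : Prop :=
  M ⊆ S ∧ Irred M ∧ ∀ M' : Set (κ → ℂ), M' ⊆ S → Irred M' → M ⊆ M' → M' ⊆ M

/-- The dimension of `Z` is at most `n`: strictly increasing chains
`C 0 ⊂ C 1 ⊂ ... ⊂ C k` of irreducible Zariski closed sets inside `Z` have `k ≤ n` -/
def DimLE {κ : Type} (n : ℕ) (Z : Set (κ → ℂ)) : Prop :=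
  ∀ (k : ℕ) (C : Fin (k + 1) → Set (κ → ℂ)), StrictMono C →
    (∀ i, ProjClosed (C i) ∧ Irred (C i) ∧ C i ⊆ Z) → k ≤ n

/-- The Zariski closure of a set of points of projective space -/
def projClosure {κ : Type} (T : Set (κ → ℂ)) : Set (κ → ℂ) :=
  {v | v ≠ 0 ∧ ∀ (F : MvPolynomial κ ℂ) (n : ℕ), F.IsHomogeneous n →
    (∀ w ∈ T, eval w F = 0) → eval v F = 0}

/-- The value at `s = (s 0, s 1)` of the family of binary forms of degree `e` with the coefficients
`φ (k, 0), ..., φ (k, e)` -/
noncomputable def ev {κ : Type} {e : ℕ} (φ : κ × Fin (e + 1) → ℂ) (s : Fin 2 → ℂ) : κ → ℂ :=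
  fun k => ∑ j : Fin (e + 1), φ (k, j) * s 0 ^ (j : ℕ) * s 1 ^ (e - (j : ℕ))

/-- `R` is the image of a morphism from the projective line to projective space, given by binary
forms of the same degree without common zeros. If the degree is zero, `R` is a single point. -/
def RatCurve {κ : Type} (R : Set (κ → ℂ)) : Prop :=
  ∃ (e : ℕ) (φ : κ × Fin (e + 1) → ℂ), (∀ s : Fin 2 → ℂ, s ≠ 0 → ev φ s ≠ 0) ∧
    R = {v | ∃ s : Fin 2 → ℂ, s ≠ 0 ∧ ∃ a : ℂ, a ≠ 0 ∧ v = a • ev φ s}

/-- `T` is rationally connected: two general points of `T` are on a rational curve in the closure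
of `T` (a single point is rationally connected) -/
def RatConn {κ : Type} (T : Set (κ → ℂ)) : Prop :=
  ∃ G : MvPolynomial (κ ⊕ κ) ℂ, (∃ p ∈ T, ∃ q ∈ T, eval (Sum.elim p q) G ≠ 0) ∧
    ∀ p ∈ T, ∀ q ∈ T, eval (Sum.elim p q) G ≠ 0 →
      ∃ R : Set (κ → ℂ), RatCurve R ∧ R ⊆ projClosure T ∧ p ∈ R ∧ q ∈ R

/-- `X` is a Zariski closed subset of `ℙ¹ × ℙ(ι)`, as a set of pairs of nonzero vectors: the common
zeros of a set of bihomogeneous polynomials -/
def BiClosed {ι : Type} (X : Set ((Fin 2 → ℂ) × (ι → ℂ))) : Prop :=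
  ∃ S : Set (MvPolynomial (Fin 2 ⊕ ι) ℂ),
    (∀ F ∈ S, ∃ p q : ℕ, ∀ (a c : ℂ) (b : Fin 2 → ℂ) (x : ι → ℂ),
      eval (Sum.elim (a • b) (c • x)) F = a ^ p * c ^ q * eval (Sum.elim b x) F) ∧
    X = {y | y.1 ≠ 0 ∧ y.2 ≠ 0 ∧ ∀ F ∈ S, eval (Sum.elim y.1 y.2) F = 0}

/-- The fibre of `X` over the point `b` of the projective line -/
def fib {ι : Type} (X : Set ((Fin 2 → ℂ) × (ι → ℂ))) (b : Fin 2 → ℂ) : Set (ι → ℂ) :=
  {x | (b, x) ∈ X}

/-- The space of sections of degree `d` of `X` over the projective line: the sections are the maps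
`b ↦ (b, c(b))`, where `c` consists of binary forms of degree `d` without common zeros; it is a
subset of the projective space of the coefficient vectors `c`. The space of all sections is the
disjoint union of its open and closed subsets `Sec X d`, `d = 0, 1, 2, ...`. -/
def Sec {ι : Type} (X : Set ((Fin 2 → ℂ) × (ι → ℂ))) (d : ℕ) : Set (ι × Fin (d + 1) → ℂ) :=
  {c | ∀ b : Fin 2 → ℂ, b ≠ 0 → (b, ev c b) ∈ X}

/-- Properties of the Abel-Jacobi map `α` from a component `M` of the space of sections to the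
intermediate Jacobian (and of every morphism from `M` to a complex torus `V / Λ`): it depends only
on the points of `M` and not on the vectors which represent them, its fibres are Zariski closed in
`M`, and its composition with every morphism from the projective line to `M` is holomorphic -/
structure AJType {κ : Type} {V : Type} [NormedAddCommGroup V] [NormedSpace ℂ V]
    (Λ : AddSubgroup V) (M : Set (κ → ℂ)) (α : (κ → ℂ) → V ⧸ Λ) : Prop where
  scale : ∀ v ∈ M, ∀ a : ℂ, a ≠ 0 → α (a • v) = α v
  closed : ∀ z : V ⧸ Λ, ∃ Z : Set (κ → ℂ), ProjClosed Z ∧ {v | v ∈ M ∧ α v = z} = M ∩ Z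
  hol : ∀ (e : ℕ) (φ : κ × Fin (e + 1) → ℂ), (∀ s : Fin 2 → ℂ, s ≠ 0 → ev φ s ∈ M) →
    ∀ s₀ : Fin 2 → ℂ, s₀ ≠ 0 → ∃ h : (Fin 2 → ℂ) → V, AnalyticAt ℂ h s₀ ∧
      ∀ᶠ s in 𝓝 s₀, α (ev φ s) = (h s : V ⧸ Λ)

/-- The Stein factorization of `α : M → V / Λ` is, up to birational equivalence, the maximal
rationally connected fibration of `M`. For a general point `m` of `M` the fibre through `m` of the
Stein factorization (on the normalization of `M`) is the irreducible component `T` through `m` of
the fibre of `α` through `m`. A dominant rational map is the maximal rationally connected fibration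
if its general fibres are rationally connected and contain all rational curves (in the closure of
`M`) which meet them. -/
def SteinIsMRC {κ : Type} {V : Type} [NormedAddCommGroup V] [NormedSpace ℂ V]
    (Λ : AddSubgroup V) (M : Set (κ → ℂ)) (α : (κ → ℂ) → V ⧸ Λ) : Prop :=
  ∃ G : MvPolynomial κ ℂ, (∃ m ∈ M, eval m G ≠ 0) ∧
    ∀ m ∈ M, eval m G ≠ 0 → ∀ T : Set (κ → ℂ), Component T {v | v ∈ M ∧ α v = α m} → m ∈ T →
      RatConn T ∧ ∀ R : Set (κ → ℂ), RatCurve R → R ⊆ projClosure M → m ∈ R → R ⊆ projClosure T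

end Pool.Agent.Helper845_Sec
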