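import Pool.Agent.Helper845_Sec.Abs
import Pool.Agent.Helper845_Sec.Bin

/-!
# Generic injectivity of the evaluation maps: specialisation
-/

namespace Pool.Agent.Helper845_Sec

open MvPolynomial

section

variable {ι : Type} [Finite ι]

/-- the coordinate ring of the cone over `M` -/
abbrev CRing {κ : Type} (M : Set (κ → ℂ)) : Type :=
  MvPolynomial κ ℂ ⧸ (vanishingIdeal ℂ M : Ideal (MvPolynomial κ ℂ))

/-- evaluation of the elements of the coordinate ring at a point of `M` -/
noncomputable def evL {κ : Type} {M : Set (κ → ℂ)} {c : κ → ℂ} (hc : c ∈ M) : CRing M →+* ℂ :=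
  Ideal.Quotient.lift (vanishingIdeal ℂ M : Ideal (MvPolynomial κ ℂ)) (eval c)
    fun (G : MvPolynomial κ ℂ) (hG : G ∈ (vanishingIdeal ℂ M : Ideal (MvPolynomial κ ℂ))) =>
      hG c hc

theorem evL_mk {κ : Type} {M : Set (κ → ℂ)} {c : κ → ℂ} (hc : c ∈ M) (G : MvPolynomial κ ℂ) :
    evL hc (Ideal.Quotient.mk _ G) = eval c G := Ideal.Quotient.lift_mk _ _ _

/-- evaluation of polynomials over the coordinate ring at a point of `M` and a number -/
noncomputable def evB {κ : Type} {M : Set (κ → ℂ)} {c : κ → ℂ} (hc : c ∈ M) (z : ℂ) :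
    Polynomial (CRing M) →+* ℂ :=
  Polynomial.eval₂RingHom (evL hc) z

/-- the generic point: the variable `t` and the values at `t` of the generic section -/
noncomputable def genPt {d : ℕ} (M : Set (ι × Fin (d + 1) → ℂ)) (o : Option ι) :
    Polynomial (CRing M) :=
  o.elim Polynomial.X fun i => ∑ j : Fin (d + 1),
    Polynomial.X ^ (j : ℕ) * Polynomial.C (Ideal.Quotient.mk _ (X (i, j)))

omit [Finite ι] in
theorem evB_genPt {d : ℕ} {M : Set (ι × Fin (d + 1) → ℂ)} {c : ι × Fin (d + 1) → ℂ} (hc : c ∈ M)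
    (z : ℂ) (o : Option ι) : evB hc z (genPt M o) = o.elim z fun i => ev c ![z, 1] i := by
  cases o with
  | none => simp [genPt, evB]
  | some i =>
    simp only [genPt, Option.elim]
    rw [map_sum, ev_t_one]
    refine Finset.sum_congr rfl fun j _ => ?_
    rw [map_mul, map_pow]
    simp [evB, evL_mk]

omit [Finite ι] in
theorem evB_aeval {d : ℕ} {M : Set (ι × Fin (d + 1) → ℂ)} {c : ι × Fin (d + 1) → ℂ} (hc : c ∈ M)
    (z : ℂ) (G : MvPolynomial (Option ι) ℂ) :
    evB hc z (aeval (genPt M) G) = eval (fun o => o.elim z fun i => ev c ![z, 1] i) G := by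
  induction G using MvPolynomial.induction_on with
  | C a =>
    rw [aeval_C, eval_C, IsScalarTower.algebraMap_apply ℂ (CRing M) (Polynomial (CRing M))]
    simp only [evB, Polynomial.coe_eval₂RingHom, Polynomial.algebraMap_eq, Polynomial.eval₂_C]
    change evL hc (Ideal.Quotient.mk _ (C a)) = a
    rw [evL_mk, eval_C]
  | add p q hp hq => rw [map_add, map_add, hp, hq, map_add]
  | mul_X p o hp => rw [map_mul, map_mul, hp, map_mul, eval_X, aeval_X, evB_genPt]

/-- rational functions which compute the generic section from its value at `t` -/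
theorem exists_rational {d : ℕ} {M : Set (ι × Fin (d + 1) → ℂ)} (hM : ProjClosed M)
    (hI : Irred M) (h0 : ∀ c ∈ M, ∀ b : Fin 2 → ℂ, b ≠ 0 → ev c b ≠ 0) :
    ∃ (s : MvPolynomial (Option ι) ℂ) (r : ι × Fin (d + 1) → MvPolynomial (Option ι) ℂ),
      aeval (genPt M) s ≠ 0 ∧ ∀ k, aeval (genPt M) s *
        Polynomial.C (Ideal.Quotient.mk _ (X k)) = aeval (genPt M) (r k) := by
  classical
  have := Fintype.ofFinite ι
  have hprime := hI.isPrime hM
  let L := FractionRing (CRing M)
  let E := RatFunc L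
  let Ω := AlgebraicClosure E
  let c : ι × Fin (d + 1) → L := fun k => algebraMap (CRing M) L (Ideal.Quotient.mk _ (X k))
  let θ : Polynomial (CRing M) →+* E :=
    (algebraMap (Polynomial L) E).comp (Polynomial.mapRingHom (algebraMap (CRing M) L))
  have hθ : Function.Injective θ := by
    have h1 : (θ : Polynomial (CRing M) → E) = (algebraMap (Polynomial L) E) ∘
        (Polynomial.map (algebraMap (CRing M) L)) := rfl
    rw [h1]
    exact Function.Injective.comp (RatFunc.algebraMap_injective L)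
      (Polynomial.map_injective _ (IsFractionRing.injective (CRing M) L))
  have hc : ∀ G ∈ (vanishingIdeal ℂ M : Ideal (MvPolynomial (ι × Fin (d + 1)) ℂ)),
      aeval c G = 0 := by
    intro G hG
    have h1 : aeval c G = algebraMap (CRing M) L (Ideal.Quotient.mk _ G) := by
      have h2 : (aeval c : MvPolynomial (ι × Fin (d + 1)) ℂ →ₐ[ℂ] L) =
          (IsScalarTower.toAlgHom ℂ (CRing M) L).comp
            (Ideal.Quotient.mkₐ ℂ (vanishingIdeal ℂ M)) := by
        ext k
        simp [c]
      rw [h2]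
      rfl
    rw [h1, Ideal.Quotient.eq_zero_iff_mem.mpr hG, map_zero]
  have ht : Transcendental L (RatFunc.X : E) := by
    rw [transcendental_iff_injective]
    have h1 : (Polynomial.aeval (RatFunc.X : E) : Polynomial L →ₐ[L] E) =
        IsScalarTower.toAlgHom L (Polynomial L) E := by
      ext
      simp [E]
    rw [h1]
    exact RatFunc.algebraMap_injective L
  have key := generic_mem (Ω := Ω) hM h0 (RatFunc.X : E) ht RatFunc.adjoin_X c hc
  set v : Option ι → E := fun o => o.elim (RatFunc.X : E) fun i =>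
    ∑ j : Fin (d + 1), (RatFunc.X : E) ^ (j : ℕ) * algebraMap L E (c (i, j)) with hv
  have hθc : ∀ k, θ (Polynomial.C (Ideal.Quotient.mk _ (X k))) = algebraMap L E (c k) := by
    intro k
    simp only [θ, RingHom.comp_apply, Polynomial.coe_mapRingHom, Polynomial.map_C]
    rw [IsScalarTower.algebraMap_apply L (Polynomial L) E, Polynomial.algebraMap_eq]
  have hθX : θ Polynomial.X = RatFunc.X := by
    simp only [θ, RingHom.comp_apply, Polynomial.coe_mapRingHom, Polynomial.map_X]
    exact RatFunc.algebraMap_X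
  have hθv : ∀ o, θ (genPt M o) = v o := by
    intro o
    cases o with
    | none => exact hθX
    | some i =>
      simp only [genPt, hv, Option.elim]
      rw [map_sum]
      refine Finset.sum_congr rfl fun j _ => ?_
      rw [map_mul, map_pow, hθX, hθc]
  have hθG : ∀ G : MvPolynomial (Option ι) ℂ, θ (aeval (genPt M) G) = aeval v G := by
    intro G
    induction G using MvPolynomial.induction_on with
    | C a =>
      rw [aeval_C, aeval_C, IsScalarTower.algebraMap_apply ℂ (CRing M) (Polynomial (CRing M)),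
        IsScalarTower.algebraMap_apply ℂ L E, Polynomial.algebraMap_eq]
      simp only [θ, RingHom.comp_apply, Polynomial.coe_mapRingHom, Polynomial.map_C]
      rw [IsScalarTower.algebraMap_apply L (Polynomial L) E, Polynomial.algebraMap_eq,
        IsScalarTower.algebraMap_apply ℂ (CRing M) L]
    | add p q hp hq => rw [map_add, map_add, hp, hq, map_add]
    | mul_X p o hp => rw [map_mul, map_mul, hp, aeval_X, map_mul, aeval_X, hθv]
  have h1 : ∀ k, ∃ r s : MvPolynomial (Option ι) ℂ, aeval v s ≠ 0 ∧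
      aeval v s * algebraMap L E (c k) = aeval v r := by
    intro k
    obtain ⟨r, s, hrs⟩ := (IntermediateField.mem_adjoin_range_iff ℂ v _).mp (key k)
    by_cases hs : aeval v s = 0
    · rw [hs, div_zero] at hrs
      refine ⟨0, 1, ?_, ?_⟩
      · rw [map_one]
        exact one_ne_zero
      · rw [hrs, map_zero, mul_zero]
    · refine ⟨r, s, hs, ?_⟩
      rw [hrs, mul_div_cancel₀ _ hs]
  choose r s hs hrs using h1
  refine ⟨∏ k, s k, fun k => r k * ∏ l ∈ Finset.univ.erase k, s l, ?_, fun k => ?_⟩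
  · intro h
    have h2 := congrArg θ h
    rw [hθG, map_zero, map_prod] at h2
    exact Finset.prod_ne_zero_iff.mpr (fun k _ => hs k) h2
  · apply hθ
    rw [map_mul, hθG, hθG, hθc, ← Finset.mul_prod_erase Finset.univ s (Finset.mem_univ k),
      map_mul, map_mul, ← hrs k]
    ring

/-- for all but finitely many `z`, the sections in `M` are rational functions of their values at
`z` -/
theorem exists_generic {d : ℕ} {M : Set (ι × Fin (d + 1) → ℂ)} (hM : ProjClosed M)
    (hI : Irred M) (h0 : ∀ c ∈ M, ∀ b : Fin 2 → ℂ, b ≠ 0 → ev c b ≠ 0) :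
    ∃ E₀ : Set ℂ, E₀.Finite ∧ ∀ z ∉ E₀, ∃ (S : MvPolynomial ι ℂ)
      (R : ι × Fin (d + 1) → MvPolynomial ι ℂ), (∃ c ∈ M, eval (ev c ![z, 1]) S ≠ 0) ∧
        ∀ c ∈ M, ∀ k, eval (ev c ![z, 1]) S * c k = eval (ev c ![z, 1]) (R k) := by
  classical
  obtain ⟨s, r, hs, hrs⟩ := exists_rational hM hI h0
  -- a point of `M` with nonzero denominator
  obtain ⟨n, hn⟩ : ∃ n, (aeval (genPt M) s).coeff n ≠ 0 := by
    by_contra h
    push Not at h
    exact hs (Polynomial.ext fun n => (h n).trans (Polynomial.coeff_zero n).symm)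
  obtain ⟨G, hG⟩ := Ideal.Quotient.mk_surjective ((aeval (genPt M) s).coeff n)
  obtain ⟨c₀, hc₀, hGc₀⟩ : ∃ c ∈ M, eval c G ≠ 0 := by
    by_contra h
    push Not at h
    apply hn
    rw [← hG, Ideal.Quotient.eq_zero_iff_mem]
    exact h
  let p : Polynomial ℂ := (aeval (genPt M) s).map (evL hc₀)
  have hp : p ≠ 0 := by
    intro h
    have h1 := congrArg (fun q => Polynomial.coeff q n) h
    simp only [p, Polynomial.coeff_map, Polynomial.coeff_zero] at h1
    rw [← hG, evL_mk] at h1
    exact hGc₀ h1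
  have hpz : ∀ z, p.eval z = evB hc₀ z (aeval (genPt M) s) := by
    intro z
    rw [Polynomial.eval_map]
    rfl
  refine ⟨{z | p.IsRoot z}, Polynomial.finite_setOfPred_isRoot hp, fun z hz => ?_⟩
  -- specialise the first variable to `z`
  let ζ : Option ι → MvPolynomial ι ℂ := fun o => o.elim (C z) fun i => X i
  have hζ : ∀ (G : MvPolynomial (Option ι) ℂ) (y : ι → ℂ),
      eval y (aeval ζ G) = eval (fun o => o.elim z y) G := by
    intro G y
    rw [eval_aeval]
    congr 2
    funext o
    cases o with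
    | none => simp [ζ]
    | some i => simp [ζ]
  refine ⟨aeval ζ s, fun k => aeval ζ (r k), ⟨c₀, hc₀, ?_⟩, fun c hc k => ?_⟩
  · rw [hζ, ← evB_aeval hc₀, ← hpz]
    exact hz
  · have h1 := congrArg (evB hc z) (hrs k)
    rw [map_mul, evB_aeval, evB_aeval] at h1
    rw [hζ, hζ, ← h1]
    congr 1
    simp [evB, evL_mk]

theorem exists_linePoly {κ : Type} (F : MvPolynomial κ ℂ) (v : κ → ℂ) : ∃ p : Polynomial ℂ,
    (∀ a, p.eval a = eval (a • v) F) ∧ ∀ n, p.coeff n = eval v (homogeneousComponent n F) := by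
  classical
  set N := F.totalDegree + 1 with hN
  let p : Polynomial ℂ := ∑ i ∈ Finset.range N,
    Polynomial.C (eval v (homogeneousComponent i F)) * Polynomial.X ^ i
  refine ⟨p, fun a => ?_, fun n => ?_⟩
  · conv_rhs => rw [← sum_homogeneousComponent F]
    rw [map_sum, Polynomial.eval_finsetSum]
    refine Finset.sum_congr rfl fun i _ => ?_
    rw [eval_smul_homog (homogeneousComponent_isHomogeneous i F), Polynomial.eval_mul,
      Polynomial.eval_C, Polynomial.eval_pow, Polynomial.eval_X, mul_comm]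
  · have hc : p.coeff n = if n < N then eval v (homogeneousComponent n F) else 0 := by
      simp only [p, Polynomial.finsetSum_coeff, Polynomial.coeff_C_mul, Polynomial.coeff_X_pow,
        mul_ite, mul_one, mul_zero]
      rw [Finset.sum_ite_eq]
      simp
    rw [hc]
    split_ifs with hn
    · rfl
    · rw [homogeneousComponent_eq_zero _ _ (by omega), map_zero]

theorem ev_smul_left {κ : Type} {e : ℕ} (φ : κ × Fin (e + 1) → ℂ) (a : ℂ) (s : Fin 2 → ℂ) :
    ev (a • φ) s = a • ev φ s := by
  funext k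
  simp only [ev, Pi.smul_apply, smul_eq_mul]
  rw [Finset.mul_sum]
  refine Finset.sum_congr rfl fun j _ => ?_
  ring

/-- homogeneous version of `exists_generic` -/
theorem exists_generic_homog {d : ℕ} {M : Set (ι × Fin (d + 1) → ℂ)} (hM : ProjClosed M)
    (hI : Irred M) (h0 : ∀ c ∈ M, ∀ b : Fin 2 → ℂ, b ≠ 0 → ev c b ≠ 0) :
    ∃ E₀ : Set ℂ, E₀.Finite ∧ ∀ z ∉ E₀, ∃ (n : ℕ) (Q : MvPolynomial ι ℂ)
      (A : ι × Fin (d + 1) → MvPolynomial ι ℂ), Q.IsHomogeneous n ∧
        (∀ k, (A k).IsHomogeneous (n + 1)) ∧ (∃ c ∈ M, eval (ev c ![z, 1]) Q ≠ 0) ∧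
        ∀ c ∈ M, ∀ k, eval (ev c ![z, 1]) Q * c k = eval (ev c ![z, 1]) (A k) := by
  classical
  obtain ⟨E₀, hE₀, h⟩ := exists_generic hM hI h0
  refine ⟨E₀, hE₀, fun z hz => ?_⟩
  obtain ⟨S, R, ⟨c₀, hc₀, hS⟩, hSR⟩ := h z hz
  obtain ⟨n, hn⟩ : ∃ n, eval (ev c₀ ![z, 1]) (homogeneousComponent n S) ≠ 0 := by
    by_contra hcon
    push Not at hcon
    apply hS
    rw [← sum_homogeneousComponent S, map_sum]
    exact Finset.sum_eq_zero fun i _ => hcon i
  refine ⟨n, homogeneousComponent n S, fun k => homogeneousComponent (n + 1) (R k),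
    homogeneousComponent_isHomogeneous _ _, fun k => homogeneousComponent_isHomogeneous _ _,
    ⟨c₀, hc₀, hn⟩, fun c hc k => ?_⟩
  obtain ⟨p, hp, hpc⟩ := exists_linePoly S (ev c ![z, 1])
  obtain ⟨q, hq, hqc⟩ := exists_linePoly (R k) (ev c ![z, 1])
  have h1 : p * (Polynomial.X * Polynomial.C (c k)) = q := by
    rw [← sub_eq_zero]
    apply Polynomial.eq_zero_of_infinite_isRoot
    refine Set.Infinite.mono (s := {a : ℂ | a ≠ 0}) (fun a ha => ?_) ?_
    · rw [Set.mem_ofPred_eq, Polynomial.IsRoot.def, Polynomial.eval_sub, Polynomial.eval_mul,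
        Polynomial.eval_mul, Polynomial.eval_X, Polynomial.eval_C, hp, hq, sub_eq_zero,
        ← ev_smul_left]
      exact hSR _ (hM.smul_mem hc ha) k
    · exact (Set.finite_singleton (0 : ℂ)).infinite_compl
  rw [← hpc, ← hqc, ← h1, ← mul_assoc, Polynomial.coeff_mul_C, Polynomial.coeff_mul_X]

end

end Pool.Agent.Helper845_Sec
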