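import Pool.Agent.Helper845_Sec.Span

/-!
# Images of closed sets under morphisms given by forms without common zeros
-/

namespace Pool.Agent.Helper845_Sec

open MvPolynomial Topology

section

variable {κ ι : Type}

/-- the map of coordinate rings given by the forms `g i` -/
noncomputable def theta (Z : Set (κ → ℂ)) (g : ι → MvPolynomial κ ℂ) :
    MvPolynomial ι ℂ →ₐ[ℂ] (MvPolynomial κ ℂ ⧸ (vanishingIdeal ℂ Z : Ideal (MvPolynomial κ ℂ))) :=
  aeval fun i => Ideal.Quotient.mk _ (g i)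

theorem theta_eq (Z : Set (κ → ℂ)) (g : ι → MvPolynomial κ ℂ) (F : MvPolynomial ι ℂ) :
    theta Z g F = Ideal.Quotient.mk _ (aeval g F) := by
  have : theta Z g = (Ideal.Quotient.mkₐ ℂ (vanishingIdeal ℂ Z)).comp (aeval g) := by
    ext i
    simp [theta]
  rw [this]
  rfl

theorem eval_aeval (g : ι → MvPolynomial κ ℂ) (F : MvPolynomial ι ℂ) (v : κ → ℂ) :
    eval v (aeval g F) = eval (fun i => eval v (g i)) F := by
  induction F using MvPolynomial.induction_on with
  | C a => simp
  | add p q hp hq => rw [map_add, map_add, map_add, hp, hq]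
  | mul_X p i hp => rw [map_mul, map_mul, map_mul, hp, aeval_X, eval_X]

theorem theta_eq_zero (Z : Set (κ → ℂ)) (g : ι → MvPolynomial κ ℂ) (F : MvPolynomial ι ℂ) :
    theta Z g F = 0 ↔ ∀ v ∈ Z, eval (fun i => eval v (g i)) F = 0 := by
  rw [theta_eq, Ideal.Quotient.eq_zero_iff_mem]
  constructor
  · intro h v hv
    rw [← eval_aeval]
    exact h v hv
  · intro h v hv
    exact (eval_aeval g F v).trans (h v hv)

variable [Finite κ] [Finite ι]

theorem theta_integral {Z : Set (κ → ℂ)} (hZ : ProjClosed Z) (g : ι → MvPolynomial κ ℂ) {D : ℕ}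
    (hD : D ≠ 0) (hg : ∀ i, (g i).IsHomogeneous D) (h0 : ∀ v ∈ Z, ∃ i, eval v (g i) ≠ 0) :
    (theta Z g).toRingHom.IsIntegral := by
  classical
  have := Fintype.ofFinite ι
  have := Fintype.ofFinite κ
  obtain ⟨m, hm, hrel⟩ := exists_rel hZ g hg h0
  let B := MvPolynomial κ ℂ ⧸ (vanishingIdeal ℂ Z : Ideal (MvPolynomial κ ℂ))
  let _ : Algebra (MvPolynomial ι ℂ) B := (theta Z g).toRingHom.toAlgebra
  have hmap : ∀ F : MvPolynomial ι ℂ, algebraMap (MvPolynomial ι ℂ) B F = theta Z g F :=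
    fun F => rfl
  let x : κ → B := fun k => Ideal.Quotient.mk _ (X k)
  have hx : ∀ k, IsIntegral (MvPolynomial ι ℂ) (x k) := by
    refine fun k => integral_of_rel x m (fun k => ?_) k
    obtain ⟨h, hh, hv⟩ := hrel k
    refine ⟨∑ i, C (X i) * MvPolynomial.map C (h i), ?_, ?_⟩
    · refine lt_of_le_of_lt (totalDegree_finsetSum _ _) ?_
      rw [Finset.sup_lt_iff (by rw [Nat.bot_eq_zero]; omega)]
      intro i _
      refine lt_of_le_of_lt (totalDegree_mul _ _) ?_
      have h1 : (MvPolynomial.map (C : ℂ →+* MvPolynomial ι ℂ) (h i)).totalDegree ≤ m - D :=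
        ((hh i).map _).totalDegree_le
      rw [totalDegree_C]
      omega
    · have h2 : ∀ i, aeval x (MvPolynomial.map (C : ℂ →+* MvPolynomial ι ℂ) (h i)) =
          Ideal.Quotient.mk (vanishingIdeal ℂ Z : Ideal (MvPolynomial κ ℂ)) (h i) := by
        intro i
        induction h i using MvPolynomial.induction_on with
        | C a =>
          rw [map_C, aeval_C, hmap, theta, aeval_C]
          rfl
        | add p q hp hq => rw [map_add, map_add, hp, hq, map_add]
        | mul_X p j hp => rw [map_mul, map_mul, hp, map_X, aeval_X, map_mul]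
      rw [map_sum]
      have h3 : ∀ i, aeval x (C (X i) * MvPolynomial.map (C : ℂ →+* MvPolynomial ι ℂ) (h i)) =
          Ideal.Quotient.mk (vanishingIdeal ℂ Z : Ideal (MvPolynomial κ ℂ)) (h i * g i) := by
        intro i
        rw [map_mul, h2, aeval_C, hmap, theta, aeval_X, map_mul, mul_comm]
      rw [Finset.sum_congr rfl fun i _ => h3 i, ← map_sum]
      change Ideal.Quotient.mk _ (X k) ^ m = _
      rw [← map_pow, Ideal.Quotient.mk_eq_mk_iff_sub_mem]
      intro v hvZ
      have h4 := hv v hvZ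
      rw [finsum_eq_sum_of_fintype] at h4
      change eval v _ = 0
      rw [map_sub, map_pow, eval_X, map_sum, h4, sub_eq_zero]
      refine Finset.sum_congr rfl fun i _ => ?_
      rw [map_mul]
  intro b
  obtain ⟨p, rfl⟩ := Ideal.Quotient.mk_surjective b
  change IsIntegral (MvPolynomial ι ℂ) _
  induction p using MvPolynomial.induction_on with
  | C a =>
    have : Ideal.Quotient.mk (vanishingIdeal ℂ Z : Ideal (MvPolynomial κ ℂ)) (C a) =
        algebraMap (MvPolynomial ι ℂ) B (C a) := by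
      rw [hmap, theta, aeval_C]
      rfl
    rw [this]
    exact isIntegral_algebraMap
  | add p q hp hq =>
    rw [map_add]
    exact hp.add hq
  | mul_X p j hp =>
    rw [map_mul]
    exact hp.mul (hx j)

/-- the image of a closed set under forms of the same positive degree without common zeros -/
theorem image_closed {Z : Set (κ → ℂ)} (hZ : ProjClosed Z) (g : ι → MvPolynomial κ ℂ) {D : ℕ}
    (hD : D ≠ 0) (hg : ∀ i, (g i).IsHomogeneous D) (h0 : ∀ v ∈ Z, ∃ i, eval v (g i) ≠ 0) :
    ProjClosed {y : ι → ℂ | ∃ v ∈ Z, y = fun i => eval v (g i)} := by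
  classical
  have hint := theta_integral hZ g hD hg h0
  refine closed_of_cone ?_ {F | theta Z g F = 0} ?_
  · rintro y ⟨v, hv, rfl⟩ a ha
    obtain ⟨μ, hμ⟩ := IsAlgClosed.exists_pow_nat_eq a (Nat.pos_of_ne_zero hD)
    have hμ0 : μ ≠ 0 := by
      rintro rfl
      rw [zero_pow hD] at hμ
      exact ha hμ.symm
    refine ⟨μ • v, hZ.smul_mem hv hμ0, ?_⟩
    funext i
    rw [eval_smul_homog (hg i), hμ]
    rfl
  · ext y
    constructor
    · rintro ⟨v, hv, rfl⟩
      refine ⟨?_, fun F hF => (theta_eq_zero Z g F).mp hF v hv⟩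
      obtain ⟨i, hi⟩ := h0 v hv
      intro h
      exact hi (congrFun h i)
    · rintro ⟨hy0, hy⟩
      let B := MvPolynomial κ ℂ ⧸ (vanishingIdeal ℂ Z : Ideal (MvPolynomial κ ℂ))
      let _ : Algebra (MvPolynomial ι ℂ) B := (theta Z g).toRingHom.toAlgebra
      have : Algebra.IsIntegral (MvPolynomial ι ℂ) B := ⟨hint⟩
      let P : Ideal (MvPolynomial ι ℂ) := vanishingIdeal ℂ {y}
      have hker : RingHom.ker (algebraMap (MvPolynomial ι ℂ) B) ≤ P := by
        intro F hF
        rw [RingHom.mem_ker] at hF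
        exact (mem_vanishingIdeal_singleton_iff y F).mpr (hy F hF)
      obtain ⟨Q, hQmax, hQ⟩ := Ideal.exists_ideal_over_maximal_of_isIntegral P hker
      let Q' : Ideal (MvPolynomial κ ℂ) := Q.comap (Ideal.Quotient.mk _)
      have hQ'max : Q'.IsMaximal :=
        Ideal.comap_isMaximal_of_surjective _ Ideal.Quotient.mk_surjective
      obtain ⟨v, hv⟩ := isMaximal_iff_eq_vanishingIdeal_singleton.mp hQ'max
      have hvmem : ∀ F : MvPolynomial κ ℂ, F ∈ Q' ↔ eval v F = 0 := by
        intro F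
        rw [hv, mem_vanishingIdeal_singleton_iff]
        rfl
      have hvg : y = fun i => eval v (g i) := by
        funext i
        have h1 : (X i - C (y i) : MvPolynomial ι ℂ) ∈ P := by
          rw [mem_vanishingIdeal_singleton_iff]
          simp
        rw [← hQ, Ideal.mem_comap] at h1
        have h2 : algebraMap (MvPolynomial ι ℂ) B (X i - C (y i)) =
            Ideal.Quotient.mk _ (g i - C (y i)) := by
          change theta Z g _ = _
          rw [theta_eq]
          simp
        rw [h2] at h1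
        have h3 : (g i - C (y i)) ∈ Q' := h1
        rw [hvmem, map_sub, eval_C, sub_eq_zero] at h3
        exact h3.symm
      refine ⟨v, ?_, hvg⟩
      apply mem_of_vanishing hZ
      · rintro rfl
        apply hy0
        rw [hvg]
        funext i
        exact eval_homog_zero (hg i) hD
      · intro F hF
        rw [← hvmem]
        change Ideal.Quotient.mk _ F ∈ Q
        rw [Ideal.Quotient.eq_zero_iff_mem.mpr hF]
        exact Q.zero_mem

omit [Finite κ] [Finite ι] in
theorem image_irred {Z : Set (κ → ℂ)} (hZ : ProjClosed Z) (hI : Irred Z)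
    (g : ι → MvPolynomial κ ℂ) {D : ℕ} (hg : ∀ i, (g i).IsHomogeneous D)
    (h0 : ∀ v ∈ Z, ∃ i, eval v (g i) ≠ 0) :
    Irred {y : ι → ℂ | ∃ v ∈ Z, y = fun i => eval v (g i)} := by
  have hpre : ∀ A : Set (ι → ℂ), ProjClosed A →
      ProjClosed {v : κ → ℂ | v ∈ Z ∧ (fun i => eval v (g i)) ∈ A} := by
    rintro A ⟨S, hS, rfl⟩
    have h1 : ProjClosed {v : κ → ℂ | v ≠ 0 ∧ ∀ F ∈ (fun F => aeval g F) '' S, eval v F = 0} := by
      refine ⟨_, ?_, rfl⟩
      rintro _ ⟨F, hF, rfl⟩
      obtain ⟨n, hn⟩ := hS F hF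
      exact ⟨_, hn.aeval g hg⟩
    convert hZ.inter h1 using 1
    ext v
    constructor
    · rintro ⟨hv, -, h⟩
      refine ⟨hv, hZ.ne_zero hv, ?_⟩
      rintro _ ⟨F, hF, rfl⟩
      exact (eval_aeval g F v).trans (h F hF)
    · rintro ⟨hv, -, h⟩
      refine ⟨hv, ?_, fun F hF => ?_⟩
      · obtain ⟨i, hi⟩ := h0 v hv
        exact fun h => hi (congrFun h i)
      · rw [← eval_aeval]
        exact h _ ⟨F, hF, rfl⟩
  refine ⟨?_, ?_, ?_⟩
  · obtain ⟨v, hv⟩ := hI.1
    exact ⟨_, v, hv, rfl⟩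
  · rintro y ⟨v, hv, rfl⟩ h
    obtain ⟨i, hi⟩ := h0 v hv
    exact hi (congrFun h i)
  · intro A B hA hB hAB
    have hsub : Z ⊆ {v : κ → ℂ | v ∈ Z ∧ (fun i => eval v (g i)) ∈ A} ∪
        {v : κ → ℂ | v ∈ Z ∧ (fun i => eval v (g i)) ∈ B} := by
      intro v hv
      rcases hAB ⟨v, hv, rfl⟩ with h | h
      · exact Or.inl ⟨hv, h⟩
      · exact Or.inr ⟨hv, h⟩
    rcases hI.2.2 _ _ (hpre A hA) (hpre B hB) hsub with h | h
    · left
      rintro y ⟨v, hv, rfl⟩
      exact (h hv).2
    · right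
      rintro y ⟨v, hv, rfl⟩
      exact (h hv).2

/-- incomparability: different nested irreducible closed sets have different images -/
theorem image_ne {Z Z' : Set (κ → ℂ)} (hZ : ProjClosed Z) (hI : Irred Z) (hZ' : ProjClosed Z')
    (hlt : Z' ⊂ Z) (g : ι → MvPolynomial κ ℂ) {D : ℕ} (hD : D ≠ 0)
    (hg : ∀ i, (g i).IsHomogeneous D) (h0 : ∀ v ∈ Z, ∃ i, eval v (g i) ≠ 0) :
    {y : ι → ℂ | ∃ v ∈ Z', y = fun i => eval v (g i)} ⊂
      {y : ι → ℂ | ∃ v ∈ Z, y = fun i => eval v (g i)} := by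
  classical
  have hsub : {y : ι → ℂ | ∃ v ∈ Z', y = fun i => eval v (g i)} ⊆
      {y : ι → ℂ | ∃ v ∈ Z, y = fun i => eval v (g i)} := by
    rintro y ⟨v, hv, rfl⟩
    exact ⟨v, hlt.subset hv, rfl⟩
  refine ⟨hsub, fun hcon => ?_⟩
  have hint := theta_integral hZ g hD hg h0
  have hprime := hI.isPrime hZ
  let B := MvPolynomial κ ℂ ⧸ (vanishingIdeal ℂ Z : Ideal (MvPolynomial κ ℂ))
  let _ : Algebra (MvPolynomial ι ℂ) B := (theta Z g).toRingHom.toAlgebra
  -- a polynomial which vanishes on `Z'` but not on `Z`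
  obtain ⟨w, hwZ, hwZ'⟩ := Set.exists_of_ssubset hlt
  obtain ⟨F, hF, hFw⟩ : ∃ F ∈ (vanishingIdeal ℂ Z' : Ideal (MvPolynomial κ ℂ)), eval w F ≠ 0 := by
    by_contra h
    push Not at h
    exact hwZ' (mem_of_vanishing hZ' (hZ.ne_zero hwZ) h)
  let I : Ideal B := (vanishingIdeal ℂ Z' : Ideal (MvPolynomial κ ℂ)).map (Ideal.Quotient.mk _)
  have hFI : Ideal.Quotient.mk _ F ∈ I := Ideal.mem_map_of_mem _ hF
  have hF0 : Ideal.Quotient.mk (vanishingIdeal ℂ Z : Ideal (MvPolynomial κ ℂ)) F ≠ 0 := by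
    intro h
    rw [Ideal.Quotient.eq_zero_iff_mem] at h
    exact hFw (h w hwZ)
  obtain ⟨P, hP0, hP⟩ : ∃ P : MvPolynomial ι ℂ, algebraMap _ B P ≠ 0 ∧
      algebraMap (MvPolynomial ι ℂ) B P ∈ I := by
    obtain ⟨p, hpm, hp⟩ := hint (Ideal.Quotient.mk _ F)
    -- take the relation of least degree
    have hex : ∃ n : ℕ, ∃ p : Polynomial (MvPolynomial ι ℂ), p.natDegree = n ∧ p.Monic ∧
        Polynomial.eval₂ (theta Z g).toRingHom (Ideal.Quotient.mk _ F) p = 0 :=
      ⟨_, p, rfl, hpm, hp⟩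
    obtain ⟨q, hqn, hqm, hq⟩ := Nat.find_spec hex
    have hmin := fun n hn => Nat.find_min (m := n) hex hn
    have hqpos : q.natDegree ≠ 0 := by
      intro h
      rw [hqm.natDegree_eq_zero.mp h, Polynomial.eval₂_one] at hq
      exact one_ne_zero hq
    refine ⟨q.coeff 0, ?_, ?_⟩
    · intro h0
      let q' := q.divX
      have hq1 : q = q.divX * Polynomial.X + Polynomial.C (q.coeff 0) :=
        (Polynomial.divX_mul_X_add q).symm
      have h1 : Polynomial.eval₂ (theta Z g).toRingHom (Ideal.Quotient.mk _ F) q.divX = 0 := by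
        have h2 := hq
        rw [hq1, Polynomial.eval₂_add, Polynomial.eval₂_mul, Polynomial.eval₂_X,
          Polynomial.eval₂_C] at h2
        have h3 : (theta Z g).toRingHom (q.coeff 0) = 0 := h0
        rw [h3, add_zero, mul_eq_zero] at h2
        exact h2.resolve_right hF0
      refine hmin (q.natDegree - 1) (by omega) ⟨q.divX, ?_, ?_, h1⟩
      · exact Polynomial.natDegree_divX_eq_natDegree_tsub_one
      · rw [Polynomial.Monic, Polynomial.leadingCoeff,
          Polynomial.natDegree_divX_eq_natDegree_tsub_one, Polynomial.coeff_divX]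
        have : q.natDegree - 1 + 1 = q.natDegree := by omega
        rw [this]
        exact hqm
    · have hq1 : q = q.divX * Polynomial.X + Polynomial.C (q.coeff 0) :=
        (Polynomial.divX_mul_X_add q).symm
      rw [hq1, Polynomial.eval₂_add, Polynomial.eval₂_mul, Polynomial.eval₂_X,
        Polynomial.eval₂_C] at hq
      have h3 : (theta Z g).toRingHom (q.coeff 0) =
          -(Polynomial.eval₂ (theta Z g).toRingHom (Ideal.Quotient.mk _ F) q.divX *
            Ideal.Quotient.mk _ F) := by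
        rw [eq_neg_iff_add_eq_zero, add_comm]
        exact hq
      change (theta Z g).toRingHom (q.coeff 0) ∈ I
      rw [h3]
      exact I.neg_mem (I.mul_mem_left _ hFI)
  apply hP0
  change theta Z g P = 0
  rw [theta_eq_zero]
  -- `P` vanishes on the image of `Z'`
  have hP1 : aeval g P ∈ (vanishingIdeal ℂ Z' : Ideal (MvPolynomial κ ℂ)) := by
    have h1 : Ideal.Quotient.mk _ (aeval g P) ∈ I := by
      rw [← theta_eq]
      exact hP
    rw [Ideal.mem_map_iff_of_surjective _ Ideal.Quotient.mk_surjective] at h1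
    obtain ⟨G, hG, hGP⟩ := h1
    rw [Ideal.Quotient.mk_eq_mk_iff_sub_mem] at hGP
    have h2 : G - aeval g P ∈ (vanishingIdeal ℂ Z' : Ideal (MvPolynomial κ ℂ)) :=
      vanishingIdeal_anti_mono hlt.subset hGP
    have h3 := Ideal.sub_mem _ hG h2
    rwa [sub_sub_cancel] at h3
  intro v hv
  obtain ⟨w, hw, hvw⟩ := hcon ⟨v, hv, rfl⟩
  rw [hvw, ← eval_aeval]
  exact hP1 w hw

end

end Pool.Agent.Helper845_Sec
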