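import Pool.Agent.Helper845_Sec.Bin

/-!
# Maps from rational curves to complex tori are constant
-/

namespace Pool.Agent.Helper845_Sec

open MvPolynomial Topology Filter

section

variable {V : Type} [NormedAddCommGroup V] [NormedSpace ℂ V] (Λ : AddSubgroup V)
  [DiscreteTopology Λ]

theorem exists_small : ∃ ε : ℝ, 0 < ε ∧ ∀ x ∈ Λ, ‖x‖ < ε → x = 0 := by
  have h1 : IsOpen ({0} : Set Λ) := isOpen_discrete _
  obtain ⟨ε, hε, h2⟩ := Metric.isOpen_iff.mp h1 0 (Set.mem_singleton 0)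
  refine ⟨ε, hε, fun x hx hxε => ?_⟩
  have h3 : (⟨x, hx⟩ : Λ) ∈ Metric.ball (0 : Λ) ε := by
    rw [Metric.mem_ball, dist_zero_right]
    exact hxε
  have h4 := h2 h3
  rw [Set.mem_singleton_iff] at h4
  exact congrArg Subtype.val h4

theorem lift_unique {H G : ℂ → V} {z : ℂ} (hH : ContinuousAt H z) (hG : ContinuousAt G z)
    (h : ∀ᶠ z' in 𝓝 z, H z' - G z' ∈ Λ) : ∃ c : V, ∀ᶠ z' in 𝓝 z, H z' = G z' + c := by
  obtain ⟨ε, hε, hΛ⟩ := exists_small Λ
  refine ⟨H z - G z, ?_⟩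
  have hc : Tendsto (fun z' => H z' - G z' - (H z - G z)) (𝓝 z) (𝓝 0) := by
    have h1 : Tendsto (fun z' => H z' - G z') (𝓝 z) (𝓝 (H z - G z)) := hH.sub hG
    have h2 := h1.sub_const (H z - G z)
    rwa [sub_self] at h2
  have hn : ∀ᶠ z' in 𝓝 z, ‖H z' - G z' - (H z - G z)‖ < ε := by
    have h1 := hc.norm
    rw [norm_zero] at h1
    exact h1.eventually_lt_const hε
  have h0 : H z - G z ∈ Λ := h.self_of_nhds
  filter_upwards [h, hn] with z' h1 h2
  have h3 := hΛ _ (Λ.sub_mem h1 h0) h2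
  rw [sub_eq_zero] at h3
  rw [← h3]
  abel

theorem deriv_unique {f : ℂ → V ⧸ Λ} {H G : ℂ → V} {z : ℂ} (hH : ContinuousAt H z)
    (hG : ContinuousAt G z) (h1 : ∀ᶠ z' in 𝓝 z, f z' = (H z' : V ⧸ Λ))
    (h2 : ∀ᶠ z' in 𝓝 z, f z' = (G z' : V ⧸ Λ)) : deriv H z = deriv G z := by
  have h3 : ∀ᶠ z' in 𝓝 z, H z' - G z' ∈ Λ := by
    filter_upwards [h1, h2] with z' h1 h2
    rw [h1, QuotientAddGroup.eq] at h2
    have := Λ.neg_mem h2
    rwa [neg_add, neg_neg, ← sub_eq_add_neg] at this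
  obtain ⟨c, hc⟩ := lift_unique Λ hH hG h3
  have h4 : H =ᶠ[𝓝 z] fun z' => G z' + c := hc
  rw [h4.deriv_eq, deriv_add_const]

/-- a map from the affine line to a complex torus which has local holomorphic lifts, also at
infinity, is constant -/
theorem const_of_lifts [CompleteSpace V] {f : ℂ → V ⧸ Λ}
    (hf : ∀ z, ∃ H : ℂ → V, AnalyticAt ℂ H z ∧ ∀ᶠ z' in 𝓝 z, f z' = (H z' : V ⧸ Λ))
    {K : ℂ → V} (hK : AnalyticAt ℂ K 0)
    (hfK : ∀ᶠ w in 𝓝 (0 : ℂ), w ≠ 0 → f w⁻¹ = (K w : V ⧸ Λ)) (z z' : ℂ) : f z = f z' := by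
  choose H hH hfH using hf
  let D : ℂ → V := fun z => deriv (H z) z
  have hD : ∀ z₀, D =ᶠ[𝓝 z₀] deriv (H z₀) := by
    intro z₀
    filter_upwards [(hH z₀).eventually_analyticAt, (hfH z₀).eventually_nhds] with z h1 h2
    exact deriv_unique Λ (hH z).continuousAt h1.continuousAt (hfH z) h2
  have hdiff : Differentiable ℂ D := fun z₀ =>
    ((hH z₀).deriv.differentiableAt).congr_of_eventuallyEq (hD z₀)
  have hDK : ∀ᶠ w in 𝓝[≠] (0 : ℂ), D w⁻¹ = -(w ^ 2) • deriv K w := by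
    have h1 : ∀ᶠ w in 𝓝[≠] (0 : ℂ), ∀ᶠ w' in 𝓝 w, (w' ≠ 0 → f w'⁻¹ = (K w' : V ⧸ Λ)) :=
      hfK.eventually_nhds.filter_mono nhdsWithin_le_nhds
    have h2 : ∀ᶠ w in 𝓝[≠] (0 : ℂ), AnalyticAt ℂ K w :=
      hK.eventually_analyticAt.filter_mono nhdsWithin_le_nhds
    filter_upwards [h1, h2, self_mem_nhdsWithin] with w h1 h2 hw
    have hw0 : w ≠ 0 := hw
    have hwi : w⁻¹ ≠ 0 := inv_ne_zero hw0
    have h3 : Tendsto (fun z : ℂ => z⁻¹) (𝓝 w⁻¹) (𝓝 w) := by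
      have := (continuousAt_inv₀ hwi).tendsto
      rwa [inv_inv] at this
    have h4 : ∀ᶠ z in 𝓝 w⁻¹, f z = ((fun z : ℂ => K z⁻¹) z : V ⧸ Λ) := by
      filter_upwards [h3.eventually h1, isOpen_ne.mem_nhds hwi] with z h5 h6
      have h7 := h5 (inv_ne_zero h6)
      rwa [inv_inv] at h7
    have hKw : DifferentiableAt ℂ K (w⁻¹)⁻¹ := by
      rw [inv_inv]
      exact h2.differentiableAt
    have h5 : HasDerivAt (fun z : ℂ => K z⁻¹) (-((w⁻¹) ^ 2)⁻¹ • deriv K (w⁻¹)⁻¹) w⁻¹ :=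
      HasDerivAt.scomp w⁻¹ hKw.hasDerivAt (hasDerivAt_inv hwi)
    have h6 := deriv_unique Λ (hH w⁻¹).continuousAt h5.continuousAt (hfH w⁻¹) h4
    change deriv (H w⁻¹) w⁻¹ = _
    rw [h6, h5.deriv, inv_inv, inv_pow, inv_inv]
  have htend : Tendsto D (cocompact ℂ) (𝓝 0) := by
    have h1 : Tendsto (fun w : ℂ => -(w ^ 2) • deriv K w) (𝓝[≠] (0 : ℂ)) (𝓝 0) := by
      have h2 : ContinuousAt (fun w : ℂ => -(w ^ 2) • deriv K w) 0 :=
        ((continuousAt_id.pow 2).neg).smul hK.deriv.continuousAt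
      have h3 := h2.tendsto
      simp only [id_eq, ne_eq, OfNat.ofNat_ne_zero, not_false_eq_true, zero_pow, neg_zero,
        zero_smul] at h3
      exact h3.mono_left nhdsWithin_le_nhds
    have h2 : Tendsto (fun w : ℂ => D w⁻¹) (𝓝[≠] (0 : ℂ)) (𝓝 0) :=
      h1.congr' (hDK.mono fun w hw => hw.symm)
    have h3 : Tendsto (fun z : ℂ => z⁻¹) (cocompact ℂ) (𝓝[≠] (0 : ℂ)) := by
      rw [← Metric.cobounded_eq_cocompact]
      exact tendsto_inv₀_cobounded'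
    have h4 := h2.comp h3
    refine h4.congr fun z => ?_
    simp
  have hD0 : ∀ z, D z = 0 := fun z => hdiff.apply_eq_of_tendsto_cocompact z htend
  have hloc : IsLocallyConstant f := by
    rw [IsLocallyConstant.iff_eventually_eq]
    intro z₀
    have h1 : ∀ᶠ z in 𝓝 z₀, deriv (H z₀) z = 0 := by
      filter_upwards [hD z₀] with z hz
      rw [← hz, hD0]
    obtain ⟨r, hr, h2⟩ := Metric.eventually_nhds_iff_ball.mp
      (h1.and ((hH z₀).eventually_analyticAt.and (hfH z₀)))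
    refine Metric.eventually_nhds_iff_ball.mpr ⟨r, hr, fun z hz => ?_⟩
    have h3 : H z₀ z = H z₀ z₀ := by
      refine Metric.isOpen_ball.is_const_of_deriv_eq_zero
        (convex_ball z₀ r).isPreconnected ?_ ?_ hz (Metric.mem_ball_self hr)
      · intro w hw
        exact (h2 w hw).2.1.differentiableAt.differentiableWithinAt
      · intro w hw
        exact (h2 w hw).1
    rw [(h2 z hz).2.2, (h2 z₀ (Metric.mem_ball_self hr)).2.2, h3]
  exact hloc.apply_eq_of_preconnectedSpace z z'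

variable {κ : Type}

/-- `α` is constant along morphisms from the projective line -/
theorem AJType.const [CompleteSpace V] {M : Set (κ → ℂ)} {α : (κ → ℂ) → V ⧸ Λ}
    (hα : AJType Λ M α) {e : ℕ} (φ : κ × Fin (e + 1) → ℂ)
    (hφ : ∀ s : Fin 2 → ℂ, s ≠ 0 → ev φ s ∈ M) {s s' : Fin 2 → ℂ} (hs : s ≠ 0) (hs' : s' ≠ 0) :
    α (ev φ s) = α (ev φ s') := by
  have hsc : ∀ (a : ℂ) (w : Fin 2 → ℂ), a ≠ 0 → w ≠ 0 → α (ev φ (a • w)) = α (ev φ w) := by
    intro a w ha hw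
    rw [ev_smul]
    exact hα.scale _ (hφ w hw) _ (pow_ne_zero _ ha)
  by_cases hdep : ∃ a : ℂ, s' = a • s
  · obtain ⟨a, rfl⟩ := hdep
    have ha : a ≠ 0 := by
      rintro rfl
      exact hs' (zero_smul _ _)
    exact (hsc a s ha hs).symm
  push Not at hdep
  let u : Fin 2 → ℂ := s' - s
  have hu : u ≠ 0 := by
    intro h
    refine hdep 1 ?_
    rw [one_smul]
    exact sub_eq_zero.mp h
  have hne : ∀ z : ℂ, s + z • u ≠ 0 := by
    intro z h
    by_cases hz : z = 0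
    · rw [hz, zero_smul, add_zero] at h
      exact hs h
    · refine hdep (1 - z⁻¹) ?_
      have h1 : s = -(z • u) := eq_neg_of_add_eq_zero_left h
      have h2 : u = -(z⁻¹ • s) := by
        rw [h1, smul_neg, neg_neg, smul_smul, inv_mul_cancel₀ hz, one_smul]
      have h3 : s' = s + u := by simp [u]
      rw [h3]
      conv_lhs => rw [h2]
      rw [sub_smul, one_smul, sub_eq_add_neg]
  let f : ℂ → V ⧸ Λ := fun z => α (ev φ (s + z • u))
  have hf : ∀ z, ∃ H : ℂ → V, AnalyticAt ℂ H z ∧ ∀ᶠ z' in 𝓝 z, f z' = (H z' : V ⧸ Λ) := by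
    intro z
    obtain ⟨h, hh, hα'⟩ := hα.hol e φ hφ (s + z • u) (hne z)
    have han : AnalyticAt ℂ (fun z : ℂ => s + z • u) z :=
      analyticAt_const.add (analyticAt_id.smul analyticAt_const)
    refine ⟨fun z => h (s + z • u), ?_, ?_⟩
    · exact AnalyticAt.comp' (g := h) (f := fun z : ℂ => s + z • u) hh han
    · exact han.continuousAt.tendsto.eventually hα'
  obtain ⟨h, hh, hα'⟩ := hα.hol e φ hφ u hu
  have han : AnalyticAt ℂ (fun w : ℂ => u + w • s) 0 :=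
    analyticAt_const.add (analyticAt_id.smul analyticAt_const)
  have h0 : u + (0 : ℂ) • s = u := by rw [zero_smul, add_zero]
  have hK : AnalyticAt ℂ (fun w : ℂ => h (u + w • s)) 0 :=
    AnalyticAt.comp' (g := h) (f := fun w : ℂ => u + w • s) (by rw [h0]; exact hh) han
  have hfK : ∀ᶠ w in 𝓝 (0 : ℂ), w ≠ 0 → f w⁻¹ = (h (u + w • s) : V ⧸ Λ) := by
    have h1 : Tendsto (fun w : ℂ => u + w • s) (𝓝 0) (𝓝 u) := by
      have := han.continuousAt.tendsto
      rwa [h0] at this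
    filter_upwards [h1.eventually hα', h1.eventually (isOpen_ne.mem_nhds hu)] with w h2 h3 hw
    rw [← h2]
    change α (ev φ (s + w⁻¹ • u)) = _
    have h4 : s + w⁻¹ • u = w⁻¹ • (u + w • s) := by
      rw [smul_add, smul_smul, inv_mul_cancel₀ hw, one_smul, add_comm]
    rw [h4]
    exact hsc _ _ (inv_ne_zero hw) h3
  have := const_of_lifts Λ hf hK hfK 0 1
  simp only [f, zero_smul, add_zero, one_smul] at this
  rw [this]
  congr 2
  simp [u]

/-- `α` is constant on rational curves -/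
theorem AJType.const_curve [CompleteSpace V] {M : Set (κ → ℂ)} {α : (κ → ℂ) → V ⧸ Λ}
    (hα : AJType Λ M α) {R : Set (κ → ℂ)} (hR : RatCurve R) (hRM : R ⊆ M) {v w : κ → ℂ}
    (hv : v ∈ R) (hw : w ∈ R) : α v = α w := by
  obtain ⟨e, φ, h0, rfl⟩ := hR
  have hφ : ∀ s : Fin 2 → ℂ, s ≠ 0 → ev φ s ∈ M := by
    intro s hs
    exact hRM ⟨s, hs, 1, one_ne_zero, (one_smul _ _).symm⟩
  obtain ⟨s, hs, a, ha, rfl⟩ := hv
  obtain ⟨s', hs', a', ha', rfl⟩ := hw
  rw [hα.scale _ (hφ s hs) _ ha, hα.scale _ (hφ s' hs') _ ha']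
  exact hα.const Λ φ hφ hs hs'

/-- `α` is constant on a rationally connected closed irreducible set -/
theorem AJType.const_ratConn [CompleteSpace V] {M : Set (κ → ℂ)} {α : (κ → ℂ) → V ⧸ Λ}
    (hα : AJType Λ M α) (hM : ProjClosed M) (hI : Irred M) (hR : RatConn M) :
    ∀ v ∈ M, ∀ w ∈ M, α v = α w := by
  classical
  obtain ⟨G, ⟨p₀, hp₀, q₀, hq₀, hG⟩, hconn⟩ := hR
  obtain ⟨Z, hZ, hZM⟩ := hα.closed (α p₀)
  -- the polynomial `G (p₀, ·)`
  let g : MvPolynomial κ ℂ := aeval (Sum.elim (fun k => C (p₀ k)) X) G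
  have hg : ∀ q, eval q g = eval (Sum.elim p₀ q) G := by
    intro q
    have h1 : eval q g = eval (fun i => eval q
        ((Sum.elim (fun k => C (p₀ k)) X : κ ⊕ κ → MvPolynomial κ ℂ) i)) G := eval_aeval _ _ _
    rw [h1]
    congr 2
    funext i
    rcases i with i | i
    · simp
    · simp
  have hsub : M ⊆ Z := by
    refine hI.subset_of_generic hM hZ (G := g) ⟨q₀, hq₀, by rw [hg]; exact hG⟩ fun q hq hgq => ?_
    rw [hg] at hgq
    obtain ⟨R, hR, hRM, hp, hq'⟩ := hconn p₀ hp₀ q hq hgq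
    rw [projClosure_eq hM] at hRM
    have h1 : q ∈ {v | v ∈ M ∧ α v = α p₀} := ⟨hq, hα.const_curve Λ hR hRM hq' hp⟩
    rw [hZM] at h1
    exact h1.2
  have h2 : ∀ v ∈ M, α v = α p₀ := by
    intro v hv
    have h3 : v ∈ M ∩ Z := ⟨hv, hsub hv⟩
    rw [← hZM] at h3
    exact h3.2
  intro v hv w hw
  rw [h2 v hv, h2 w hw]

end

end Pool.Agent.Helper845_Sec
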