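import Pool.Agent.Helper845_Sec.Sect
import Pool.Agent.Helper845_Sec.Torus

/-!
# Lifting of rational curves from the fibres to the space of sections; the main theorem
-/

namespace Pool.Agent.Helper845_Sec

open MvPolynomial Topology

section lift

variable {ι : Type} [Finite ι] {X : Set ((Fin 2 → ℂ) × (ι → ℂ))}

/-- if the evaluation map at a general point `z` is surjective and the fibre is rationally
connected then the component is rationally connected -/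
theorem ratConn_of_fib (hX : BiClosed X) {d : ℕ} {M : Set (ι × Fin (d + 1) → ℂ)}
    (hM : ProjClosed M) (hI : Irred M) (hMX : M ⊆ Sec X d) {b : Fin 2 → ℂ} (hb : b ≠ 0)
    (hsurj : evImg M b = fib X b) (hfib : RatConn (fib X b)) {n : ℕ} {Q : MvPolynomial ι ℂ}
    {A : ι × Fin (d + 1) → MvPolynomial ι ℂ} (hQ : Q.IsHomogeneous n)
    (hA : ∀ k, (A k).IsHomogeneous (n + 1)) (hQM : ∃ c ∈ M, eval (ev c b) Q ≠ 0)
    (hQA : ∀ c ∈ M, ∀ k, eval (ev c b) Q * c k = eval (ev c b) (A k)) : RatConn M := by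
  classical
  obtain ⟨G₀, ⟨p₀, hp₀, q₀, hq₀, hG₀⟩, hconn⟩ := hfib
  have hcl := fib_closed hX hb
  let κ := ι × Fin (d + 1)
  let L : ι → MvPolynomial κ ℂ := lin d b
  let q : MvPolynomial κ ℂ := aeval L Q
  have hq : ∀ c, eval c q = eval (ev c b) Q := by
    intro c
    change eval c (aeval L Q) = _
    rw [eval_aeval, eval_lin']
  let G₁ : MvPolynomial (κ ⊕ κ) ℂ :=
    aeval (Sum.elim (fun i => rename Sum.inl (L i)) (fun i => rename Sum.inr (L i))) G₀
  have hG₁ : ∀ c c' : κ → ℂ, eval (Sum.elim c c') G₁ = eval (Sum.elim (ev c b) (ev c' b)) G₀ := by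
    intro c c'
    change eval _ (aeval _ G₀) = _
    rw [eval_aeval]
    congr 2
    funext i
    rcases i with i | i
    · simp only [Sum.elim_inl]
      rw [eval_rename, Sum.elim_comp_inl, eval_lin]
    · simp only [Sum.elim_inr]
      rw [eval_rename, Sum.elim_comp_inr, eval_lin]
  let G : MvPolynomial (κ ⊕ κ) ℂ := G₁ * (rename Sum.inl q * rename Sum.inr q)
  have hG : ∀ c c' : κ → ℂ, eval (Sum.elim c c') G =
      eval (Sum.elim (ev c b) (ev c' b)) G₀ * (eval (ev c b) Q * eval (ev c' b) Q) := by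
    intro c c'
    change eval _ (G₁ * (rename Sum.inl q * rename Sum.inr q)) = _
    rw [map_mul, map_mul, hG₁, eval_rename, eval_rename, Sum.elim_comp_inl, Sum.elim_comp_inr, hq,
      hq]
  refine ⟨G, ?_, ?_⟩
  · -- existence of a general pair
    rw [← hsurj] at hp₀ hq₀
    obtain ⟨p₁, hp₁, rfl⟩ := hp₀
    obtain ⟨q₁, hq₁, rfl⟩ := hq₀
    have hqM : ∃ c ∈ M, eval c q ≠ 0 := by
      obtain ⟨c, hc, hcQ⟩ := hQM
      exact ⟨c, hc, by rw [hq]; exact hcQ⟩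
    -- the polynomial `G₁ (·, q₁)`
    let g₁ : MvPolynomial κ ℂ := aeval (Sum.elim MvPolynomial.X fun k => C (q₁ k)) G₁
    have hg₁ : ∀ c, eval c g₁ = eval (Sum.elim c q₁) G₁ := by
      intro c
      change eval c (aeval _ G₁) = _
      rw [eval_aeval]
      congr 2
      funext i
      rcases i with i | i
      · simp
      · simp
    obtain ⟨p₂, hp₂, hp₂g, hp₂q⟩ := hI.exists_ne hM (F := g₁) (G := q)
      ⟨p₁, hp₁, by rw [hg₁, hG₁]; exact hG₀⟩ hqM
    rw [hg₁] at hp₂g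
    let g₂ : MvPolynomial κ ℂ := aeval (Sum.elim (fun k => C (p₂ k)) MvPolynomial.X) G₁
    have hg₂ : ∀ c, eval c g₂ = eval (Sum.elim p₂ c) G₁ := by
      intro c
      change eval c (aeval _ G₁) = _
      rw [eval_aeval]
      congr 2
      funext i
      rcases i with i | i
      · simp
      · simp
    obtain ⟨q₂, hq₂, hq₂g, hq₂q⟩ := hI.exists_ne hM (F := g₂) (G := q)
      ⟨q₁, hq₁, by rw [hg₂]; exact hp₂g⟩ hqM
    rw [hg₂, hG₁] at hq₂g
    rw [hq] at hp₂q hq₂q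
    refine ⟨p₂, hp₂, q₂, hq₂, ?_⟩
    rw [hG]
    exact mul_ne_zero hq₂g (mul_ne_zero hp₂q hq₂q)
  · intro p hp p' hp' hGp
    rw [hG] at hGp
    have h1 : eval (Sum.elim (ev p b) (ev p' b)) G₀ ≠ 0 := left_ne_zero_of_mul hGp
    have h2 : eval (ev p b) Q ≠ 0 := left_ne_zero_of_mul (right_ne_zero_of_mul hGp)
    have h3 : eval (ev p' b) Q ≠ 0 := right_ne_zero_of_mul (right_ne_zero_of_mul hGp)
    obtain ⟨R, hR, hRfib, hpR, hp'R⟩ := hconn _ (hMX hp b hb) _ (hMX hp' b hb) h1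
    rw [projClosure_eq hcl] at hRfib
    obtain ⟨e, φ, hφ0, rfl⟩ := hR
    have hφ : ∀ s : Fin 2 → ℂ, s ≠ 0 → ev φ s ∈ fib X b := fun s hs =>
      hRfib ⟨s, hs, 1, one_ne_zero, (one_smul _ _).symm⟩
    obtain ⟨m, Φ, hΦ⟩ := exists_comp φ (n + 1) A hA
    -- the values of `Φ` are in the cone over `M`
    have hΦM : ∀ s : Fin 2 → ℂ, s ≠ 0 → ev Φ s ≠ 0 → ev Φ s ∈ M := by
      intro s hs hne
      have h4 := hφ s hs
      rw [← hsurj] at h4
      obtain ⟨c, hc, hcs⟩ := h4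
      have h5 : ev Φ s = eval (ev c b) Q • c := by
        funext k
        rw [hΦ, hcs, Pi.smul_apply, smul_eq_mul, hQA c hc k]
      rw [h5] at hne ⊢
      refine hM.smul_mem hc ?_
      intro h6
      rw [h6, zero_smul] at hne
      exact hne rfl
    -- points over `p` and `p'`
    have hpt : ∀ p ∈ M, eval (ev p b) Q ≠ 0 →
        ev p b ∈ {v | ∃ s : Fin 2 → ℂ, s ≠ 0 ∧ ∃ a : ℂ, a ≠ 0 ∧ v = a • ev φ s} →
        ∃ s : Fin 2 → ℂ, s ≠ 0 ∧ ∃ μ : ℂ, μ ≠ 0 ∧ ev Φ s = μ • p := by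
      rintro p hp hpQ ⟨s, hs, a, ha, hsa⟩
      refine ⟨s, hs, (a⁻¹) ^ (n + 1) * eval (ev p b) Q,
        mul_ne_zero (pow_ne_zero _ (inv_ne_zero ha)) hpQ, ?_⟩
      have h4 : ev φ s = a⁻¹ • ev p b := by
        rw [hsa, smul_smul, inv_mul_cancel₀ ha, one_smul]
      funext k
      rw [hΦ, h4, eval_smul_homog (hA k), ← hQA p hp k, Pi.smul_apply, smul_eq_mul, mul_assoc]
    obtain ⟨s₁, hs₁, μ₁, hμ₁, hs₁p⟩ := hpt p hp h2 hpR
    obtain ⟨s₂, hs₂, μ₂, hμ₂, hs₂p⟩ := hpt p' hp' h3 hp'R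
    have hΦ0 : Φ ≠ 0 := by
      intro h4
      have h5 := (ev_zero_iff Φ).mpr h4 s₁
      rw [hs₁p] at h5
      exact smul_ne_zero hμ₁ (hM.ne_zero hp) h5
    obtain ⟨e', ψ, g, -, -, hg0, hψ0, hΦψ⟩ := exists_primitive Φ hΦ0
    have hψM : ∀ s : Fin 2 → ℂ, s ≠ 0 → ev ψ s ∈ M :=
      fun s hs => primitive_mem hM Φ ψ g hg0 hψ0 hΦψ hΦM s hs
    have hmem : ∀ (p : κ → ℂ) (s : Fin 2 → ℂ) (μ : ℂ), s ≠ 0 → μ ≠ 0 → ev Φ s = μ • p →
        p ∈ M → p ∈ {v | ∃ s : Fin 2 → ℂ, s ≠ 0 ∧ ∃ a : ℂ, a ≠ 0 ∧ v = a • ev ψ s} := by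
      intro p s μ hs hμ hsp hpM
      have h4 : eval s g ≠ 0 := by
        intro h5
        have h6 := hΦψ s
        rw [h5, zero_smul, hsp] at h6
        exact smul_ne_zero hμ (hM.ne_zero hpM) h6
      refine ⟨s, hs, μ⁻¹ * eval s g, mul_ne_zero (inv_ne_zero hμ) h4, ?_⟩
      rw [mul_smul, ← hΦψ s, hsp, smul_smul, inv_mul_cancel₀ hμ, one_smul]
    refine ⟨_, ⟨e', ψ, hψ0, rfl⟩, ?_, hmem p s₁ μ₁ hs₁ hμ₁ hs₁p hp,
      hmem p' s₂ μ₂ hs₂ hμ₂ hs₂p hp'⟩
    rw [projClosure_eq hM]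
    rintro v ⟨s, hs, a, ha, rfl⟩
    exact hM.smul_mem (hψM s hs) ha

end lift

section main

variable {κ : Type}

theorem pt_eq {v w : κ → ℂ} (h : w ∈ pt v) : pt w = pt v := by
  obtain ⟨a, ha, rfl⟩ := h
  ext x
  constructor
  · rintro ⟨c, hc, rfl⟩
    exact ⟨c * a, mul_ne_zero hc ha, by rw [smul_smul]⟩
  · rintro ⟨c, hc, rfl⟩
    refine ⟨c * a⁻¹, mul_ne_zero hc (inv_ne_zero ha), ?_⟩
    rw [smul_smul, mul_assoc, inv_mul_cancel₀ ha, mul_one]

theorem pt_subset {M : Set (κ → ℂ)} (hM : ProjClosed M) {v : κ → ℂ} (hv : v ∈ M) : pt v ⊆ M := by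
  rintro w ⟨a, ha, rfl⟩
  exact hM.smul_mem hv ha

theorem ratConn_pt {v : κ → ℂ} (hv : v ≠ 0) : RatConn (pt v) := by
  refine ⟨1, ⟨v, mem_pt v, v, mem_pt v, by rw [map_one]; exact one_ne_zero⟩, ?_⟩
  intro p hp q hq _
  exact ⟨pt v, ratCurve_pt hv, subset_projClosure (fun w hw => (projClosed_pt hv).ne_zero hw),
    hp, hq⟩

theorem ratConn_of_curve {R : Set (κ → ℂ)} (hR : RatCurve R) (hR0 : Irred R) : RatConn R := by
  obtain ⟨v, hv⟩ := hR0.1
  exact ⟨1, ⟨v, hv, v, hv, by rw [map_one]; exact one_ne_zero⟩, fun p hp q hq _ =>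
    ⟨R, hR, subset_projClosure hR0.2.1, hp, hq⟩⟩

/-- a chain of two proper inclusions contradicts dimension at most one -/
theorem DimLE.chain {M A B C : Set (κ → ℂ)} (h : DimLE 1 M) (hA : ProjClosed A ∧ Irred A)
    (hB : ProjClosed B ∧ Irred B) (hC : ProjClosed C ∧ Irred C) (hAB : A ⊂ B) (hBC : B ⊂ C)
    (hCM : C ⊆ M) : False := by
  have h1 := h 2 ![A, B, C] ?_ ?_
  · omega
  · rw [Fin.strictMono_iff_lt_succ]
    intro i
    fin_cases i
    · exact hAB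
    · exact hBC
  · intro i
    fin_cases i
    · exact ⟨hA.1, hA.2, (hAB.subset.trans hBC.subset).trans hCM⟩
    · exact ⟨hB.1, hB.2, hBC.subset.trans hCM⟩
    · exact ⟨hC.1, hC.2, hCM⟩

variable {V : Type} [NormedAddCommGroup V] [NormedSpace ℂ V] {Λ : AddSubgroup V}

/-- if `α` is constant and `M` is rationally connected -/
theorem stein_of_const {M : Set (κ → ℂ)} {α : (κ → ℂ) → V ⧸ Λ} (hM : ProjClosed M)
    (hI : Irred M) (hR : RatConn M) (hα : ∀ v ∈ M, ∀ w ∈ M, α v = α w) : SteinIsMRC Λ M α := by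
  obtain ⟨m₀, hm₀⟩ := hI.1
  refine ⟨1, ⟨m₀, hm₀, by rw [map_one]; exact one_ne_zero⟩, fun m hm _ T hT hmT => ?_⟩
  have h1 : T = M := by
    apply Set.Subset.antisymm
    · exact fun v hv => (hT.1 hv).1
    · exact hT.2.2 M (fun v hv => ⟨hv, hα v hv m hm⟩) hI (fun v hv => (hT.1 hv).1)
  rw [h1]
  refine ⟨hR, fun R _ hRM _ => hRM⟩

/-- the analysis of the components of dimension at most one -/
theorem stein_of_curve {M : Set (κ → ℂ)} {α : (κ → ℂ) → V ⧸ Λ} (hM : ProjClosed M)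
    (hI : Irred M) (hdim : DimLE 1 M) (hα : AJType Λ M α)
    (hR : ∀ R : Set (κ → ℂ), RatCurve R → R ⊆ M → ∀ v ∈ R, R = pt v)
    (hnc : ¬ ∀ v ∈ M, ∀ w ∈ M, α v = α w) : SteinIsMRC Λ M α := by
  obtain ⟨m₀, hm₀⟩ := hI.1
  refine ⟨1, ⟨m₀, hm₀, by rw [map_one]; exact one_ne_zero⟩, fun m hm _ T hT hmT => ?_⟩
  have hm0 := hM.ne_zero hm
  obtain ⟨Z, hZ, hZM⟩ := hα.closed (α m)
  have hcl : ProjClosed T := hT.closed (by rw [hZM]; exact hM.inter hZ)
  have hTM : T ⊆ M := fun v hv => (hT.1 hv).1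
  have hTpt : pt m ⊆ T := pt_subset hcl hmT
  have hT' : T = pt m := by
    by_contra hne
    have hlt1 : pt m ⊂ T := hTpt.ssubset_of_ne (Ne.symm hne)
    have hlt2 : T ⊂ M := by
      refine hTM.ssubset_of_ne ?_
      rintro rfl
      apply hnc
      intro v hv w hw
      rw [(hT.1 hv).2, (hT.1 hw).2]
    exact hdim.chain ⟨projClosed_pt hm0, irred_pt hm0⟩ ⟨hcl, hT.2.1⟩ ⟨hM, hI⟩ hlt1 hlt2 subset_rfl
  rw [hT']
  refine ⟨ratConn_pt hm0, fun R hRc hRM hmR => ?_⟩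
  rw [projClosure_eq hM] at hRM
  rw [hR R hRc hRM m hmR, projClosure_eq (projClosed_pt hm0)]

end main

/-- complete components of the space of sections of a family of rationally connected surfaces -/
theorem main {ι : Type} [Finite ι] (X : Set ((Fin 2 → ℂ) × (ι → ℂ))) (hX : BiClosed X)
    (hgen : ∃ E : Set ℂ, E.Finite ∧ ∀ z ∉ E,
      Irred (fib X ![z, 1]) ∧ DimLE 2 (fib X ![z, 1]) ∧ RatConn (fib X ![z, 1]))
    (d : ℕ) (M : Set (ι × Fin (d + 1) → ℂ)) (hMc : Component M (Sec X d)) (hM : ProjClosed M) :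
    DimLE 2 M ∧ ∀ (V : Type) [NormedAddCommGroup V] [NormedSpace ℂ V] [FiniteDimensional ℂ V]
      (Λ : AddSubgroup V) [DiscreteTopology Λ] (α : (ι × Fin (d + 1) → ℂ) → V ⧸ Λ),
      AJType Λ M α → SteinIsMRC Λ M α ∨
        (DimLE 1 M ∧ (∃ v ∈ M, ∃ w ∈ M, ∀ a : ℂ, w ≠ a • v) ∧
          (∀ R : Set (ι × Fin (d + 1) → ℂ), RatCurve R → R ⊆ M →
            ∀ v ∈ R, ∀ w ∈ R, ∃ a : ℂ, w = a • v) ∧
          ∀ v ∈ M, ∀ w ∈ M, α v = α w) := by
  classical
  have hI := hMc.2.1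
  have hMX := hMc.1
  obtain ⟨E, hE, hgenE⟩ := hgen
  obtain ⟨E₀, hE₀, hQA⟩ := exists_generic_homog hM hI
    (fun c hc b hb => sec_ev_ne hX (hMX hc) hb)
  obtain ⟨z, hz⟩ := ((hE.union hE₀).infinite_compl).nonempty
  rw [Set.mem_compl_iff, Set.mem_union, not_or] at hz
  have hb : (![z, 1] : Fin 2 → ℂ) ≠ 0 := fun h => one_ne_zero (congrFun h 1)
  obtain ⟨hirr, hdim2, hrc⟩ := hgenE z hz.1
  obtain ⟨n, Q, A, hQ, hA, hQM, hQA'⟩ := hQA z hz.2
  refine ⟨dim_le hX hMX hb hdim2, ?_⟩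
  intro V _ _ _ Λ _ α hα
  have : CompleteSpace V := FiniteDimensional.complete ℂ V
  have hgood : RatConn M → SteinIsMRC Λ M α := fun hR =>
    stein_of_const hM hI hR (hα.const_ratConn Λ hM hI hR)
  by_cases hdim : DimLE 1 M
  · by_cases hcurve : ∃ R : Set (ι × Fin (d + 1) → ℂ), RatCurve R ∧ R ⊆ M ∧
        ∃ v ∈ R, ∃ w ∈ R, ∀ a : ℂ, w ≠ a • v
    · left
      apply hgood
      obtain ⟨R, hR, hRM, v, hv, w, hw, hvw⟩ := hcurve
      obtain ⟨hRcl, hRirr⟩ := ratCurve_closed_irred hR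
      have hv0 := hRcl.ne_zero hv
      have h1 : R = M := by
        by_contra hne
        have hlt2 : R ⊂ M := hRM.ssubset_of_ne hne
        have hlt1 : pt v ⊂ R := by
          refine (pt_subset hRcl hv).ssubset_of_ne ?_
          intro h
          rw [← h] at hw
          obtain ⟨a, -, ha⟩ := hw
          exact hvw a ha
        exact hdim.chain ⟨projClosed_pt hv0, irred_pt hv0⟩ ⟨hRcl, hRirr⟩ ⟨hM, hI⟩ hlt1 hlt2
          subset_rfl
      rw [← h1]
      exact ratConn_of_curve hR hRirr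
    · push Not at hcurve
      by_cases hpoint : ∃ v ∈ M, ∃ w ∈ M, ∀ a : ℂ, w ≠ a • v
      · by_cases hconst : ∀ v ∈ M, ∀ w ∈ M, α v = α w
        · exact Or.inr ⟨hdim, hpoint, hcurve, hconst⟩
        · left
          refine stein_of_curve hM hI hdim hα (fun R hR hRM v hv => ?_) hconst
          have hRcl := (ratCurve_closed_irred hR).1
          apply Set.Subset.antisymm
          · intro w hw
            obtain ⟨a, rfl⟩ := hcurve R hR hRM v hv w hw
            refine ⟨a, ?_, rfl⟩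
            rintro rfl
            exact hRcl.ne_zero hw (zero_smul _ _)
          · exact pt_subset hRcl hv
      · left
        apply hgood
        push Not at hpoint
        obtain ⟨v, hv⟩ := hI.1
        have hv0 := hM.ne_zero hv
        have h1 : M = pt v := by
          apply Set.Subset.antisymm
          · intro w hw
            obtain ⟨a, rfl⟩ := hpoint v hv w hw
            refine ⟨a, ?_, rfl⟩
            rintro rfl
            exact hM.ne_zero hw (zero_smul _ _)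
          · exact pt_subset hM hv
        rw [h1]
        exact ratConn_pt hv0
  · left
    apply hgood
    exact ratConn_of_fib hX hM hI hMX hb
      (evImg_eq_fib hX hMX hb hirr hdim2 hdim) hrc hQ hA hQM hQA'

end Pool.Agent.Helper845_Sec
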