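import Pool.Agent.Helper845_Sec.Defs

/-!
# Zariski closed subsets of projective space: basic facts
-/

namespace Pool.Agent.Helper845_Sec

open MvPolynomial Topology

variable {κ : Type}

theorem eval_smul_homog {F : MvPolynomial κ ℂ} {n : ℕ} (hF : F.IsHomogeneous n) (a : ℂ)
    (v : κ → ℂ) : eval (a • v) F = a ^ n * eval v F := by
  classical
  rw [eval_eq, eval_eq, Finset.mul_sum]
  refine Finset.sum_congr rfl fun d hd => ?_
  have h1 : d.degree = n := by
    by_contra h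
    exact (mem_support_iff.mp hd) (hF.coeff_eq_zero h)
  have h2 : ∏ i ∈ d.support, (a • v) i ^ d i = a ^ n * ∏ i ∈ d.support, v i ^ d i := by
    have : ∀ i ∈ d.support, (a • v) i ^ d i = a ^ d i * v i ^ d i := fun i _ => by
      rw [Pi.smul_apply, smul_eq_mul, mul_pow]
    rw [Finset.prod_congr rfl this, Finset.prod_mul_distrib, Finset.prod_pow_eq_pow_sum, ← h1]
    rfl
  rw [h2]
  ring

theorem eval_homog_zero {F : MvPolynomial κ ℂ} {n : ℕ} (hF : F.IsHomogeneous n) (hn : n ≠ 0) :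
    eval (0 : κ → ℂ) F = 0 := by
  have := eval_smul_homog hF 0 0
  rw [zero_pow hn, zero_mul, zero_smul] at this
  exact this

/-- the homogeneous components of a polynomial which vanishes on a line through the origin vanish -/
theorem comp_eq_zero_of_line {F : MvPolynomial κ ℂ} {v : κ → ℂ}
    (h : ∀ a : ℂ, a ≠ 0 → eval (a • v) F = 0) (n : ℕ) :
    eval v (homogeneousComponent n F) = 0 := by
  classical
  set N := F.totalDegree + 1 with hN
  let p : Polynomial ℂ := ∑ i ∈ Finset.range N,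
    Polynomial.C (eval v (homogeneousComponent i F)) * Polynomial.X ^ i
  have hp : ∀ a : ℂ, p.eval a = eval (a • v) F := by
    intro a
    conv_rhs => rw [← sum_homogeneousComponent F]
    rw [map_sum, Polynomial.eval_finsetSum]
    refine Finset.sum_congr rfl fun i _ => ?_
    rw [eval_smul_homog (homogeneousComponent_isHomogeneous i F), Polynomial.eval_mul,
      Polynomial.eval_C, Polynomial.eval_pow, Polynomial.eval_X, mul_comm]
  have hp0 : p = 0 := by
    apply Polynomial.eq_zero_of_infinite_isRoot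
    refine Set.Infinite.mono (s := {a : ℂ | a ≠ 0}) (fun a ha => ?_) ?_
    · rw [Set.mem_ofPred_eq, Polynomial.IsRoot.def, hp]
      exact h a ha
    · exact (Set.finite_singleton (0 : ℂ)).infinite_compl
  have hc : ∀ n, p.coeff n = if n < N then eval v (homogeneousComponent n F) else 0 := by
    intro n
    simp only [p, Polynomial.finsetSum_coeff, Polynomial.coeff_C_mul, Polynomial.coeff_X_pow,
      mul_ite, mul_one, mul_zero]
    rw [Finset.sum_ite_eq]
    simp
  by_cases hn : n < N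
  · have := hc n
    rw [if_pos hn, hp0, Polynomial.coeff_zero] at this
    exact this.symm
  · rw [homogeneousComponent_eq_zero _ _ (by omega), map_zero]

/-- a set of nonzero vectors, closed under scaling, which is given by polynomials, is closed -/
theorem closed_of_cone {Z : Set (κ → ℂ)} (hsc : ∀ v ∈ Z, ∀ a : ℂ, a ≠ 0 → a • v ∈ Z)
    (S : Set (MvPolynomial κ ℂ)) (hZ : Z = {v | v ≠ 0 ∧ ∀ F ∈ S, eval v F = 0}) :
    ProjClosed Z := by
  refine ⟨{G | ∃ F ∈ S, ∃ n, G = homogeneousComponent n F}, ?_, ?_⟩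
  · rintro G ⟨F, -, n, rfl⟩
    exact ⟨n, homogeneousComponent_isHomogeneous n F⟩
  · ext v
    constructor
    · intro hv
      have hv' := hv
      rw [hZ] at hv'
      refine ⟨hv'.1, ?_⟩
      rintro G ⟨F, hF, n, rfl⟩
      refine comp_eq_zero_of_line (fun a ha => ?_) n
      have := hsc v hv a ha
      rw [hZ] at this
      exact this.2 F hF
    · rintro ⟨hv0, hv⟩
      rw [hZ]
      refine ⟨hv0, fun F hF => ?_⟩
      rw [← sum_homogeneousComponent F, map_sum]
      exact Finset.sum_eq_zero fun i _ => hv _ ⟨F, hF, i, rfl⟩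

theorem ProjClosed.ne_zero {Z : Set (κ → ℂ)} (h : ProjClosed Z) {v : κ → ℂ} (hv : v ∈ Z) :
    v ≠ 0 := by
  obtain ⟨S, -, rfl⟩ := h
  exact hv.1

theorem ProjClosed.smul_mem {Z : Set (κ → ℂ)} (h : ProjClosed Z) {v : κ → ℂ} (hv : v ∈ Z) {a : ℂ}
    (ha : a ≠ 0) : a • v ∈ Z := by
  obtain ⟨S, hS, rfl⟩ := h
  refine ⟨smul_ne_zero ha hv.1, fun F hF => ?_⟩
  obtain ⟨n, hn⟩ := hS F hF
  rw [eval_smul_homog hn, hv.2 F hF, mul_zero]

theorem ProjClosed.smul_mem_iff {Z : Set (κ → ℂ)} (h : ProjClosed Z) {v : κ → ℂ} {a : ℂ}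
    (ha : a ≠ 0) : a • v ∈ Z ↔ v ∈ Z := by
  refine ⟨fun hv => ?_, fun hv => h.smul_mem hv ha⟩
  have := h.smul_mem hv (inv_ne_zero ha)
  rwa [smul_smul, inv_mul_cancel₀ ha, one_smul] at this

theorem ProjClosed.inter {A B : Set (κ → ℂ)} (hA : ProjClosed A) (hB : ProjClosed B) :
    ProjClosed (A ∩ B) := by
  obtain ⟨S, hS, rfl⟩ := hA
  obtain ⟨T, hT, rfl⟩ := hB
  refine ⟨S ∪ T, ?_, ?_⟩
  · rintro F (hF | hF)
    · exact hS F hF
    · exact hT F hF
  · ext v
    constructor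
    · rintro ⟨⟨h0, h1⟩, -, h2⟩
      refine ⟨h0, ?_⟩
      rintro F (hF | hF)
      · exact h1 F hF
      · exact h2 F hF
    · rintro ⟨h0, h⟩
      exact ⟨⟨h0, fun F hF => h F (Or.inl hF)⟩, h0, fun F hF => h F (Or.inr hF)⟩

theorem projClosed_zero (F : MvPolynomial κ ℂ) {n : ℕ} (hF : F.IsHomogeneous n) :
    ProjClosed {v : κ → ℂ | v ≠ 0 ∧ eval v F = 0} := by
  refine ⟨{F}, ?_, ?_⟩
  · rintro G rfl
    exact ⟨n, hF⟩
  · ext v
    simp

theorem projClosed_projClosure (T : Set (κ → ℂ)) : ProjClosed (projClosure T) := by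
  refine ⟨{F | (∃ n : ℕ, F.IsHomogeneous n) ∧ ∀ w ∈ T, eval w F = 0}, fun F hF => hF.1, ?_⟩
  ext v
  constructor
  · rintro ⟨h0, h⟩
    exact ⟨h0, fun F hF => h F hF.1.choose hF.1.choose_spec hF.2⟩
  · rintro ⟨h0, h⟩
    exact ⟨h0, fun F n hF hw => h F ⟨⟨n, hF⟩, hw⟩⟩

theorem subset_projClosure {T : Set (κ → ℂ)} (h0 : ∀ v ∈ T, v ≠ 0) : T ⊆ projClosure T :=
  fun v hv => ⟨h0 v hv, fun _ _ _ hw => hw v hv⟩

theorem projClosure_subset {T Z : Set (κ → ℂ)} (hZ : ProjClosed Z) (h : T ⊆ Z) :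
    projClosure T ⊆ Z := by
  obtain ⟨S, hS, rfl⟩ := hZ
  rintro v ⟨h0, hv⟩
  refine ⟨h0, fun F hF => ?_⟩
  obtain ⟨n, hn⟩ := hS F hF
  exact hv F n hn fun w hw => (h hw).2 F hF

theorem projClosure_eq {Z : Set (κ → ℂ)} (hZ : ProjClosed Z) : projClosure Z = Z :=
  Set.Subset.antisymm (projClosure_subset hZ subset_rfl)
    (subset_projClosure fun _ hv => hZ.ne_zero hv)

theorem Irred.projClosure {T : Set (κ → ℂ)} (h : Irred T) : Irred (projClosure T) := by
  obtain ⟨⟨v, hv⟩, h0, hT⟩ := h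
  refine ⟨⟨v, subset_projClosure h0 hv⟩, fun w hw => hw.1, fun A B hA hB hAB => ?_⟩
  rcases hT A B hA hB ((subset_projClosure h0).trans hAB) with h | h
  · exact Or.inl (projClosure_subset hA h)
  · exact Or.inr (projClosure_subset hB h)

/-- the point represented by a vector -/
def pt (v : κ → ℂ) : Set (κ → ℂ) := {w | ∃ a : ℂ, a ≠ 0 ∧ w = a • v}

theorem mem_pt (v : κ → ℂ) : v ∈ pt v := ⟨1, one_ne_zero, (one_smul _ _).symm⟩

theorem irred_pt {v : κ → ℂ} (hv : v ≠ 0) : Irred (pt v) := by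
  refine ⟨⟨v, mem_pt v⟩, ?_, fun A B hA hB hAB => ?_⟩
  · rintro w ⟨a, ha, rfl⟩
    exact smul_ne_zero ha hv
  · rcases hAB (mem_pt v) with h | h
    · left
      rintro w ⟨a, ha, rfl⟩
      exact hA.smul_mem h ha
    · right
      rintro w ⟨a, ha, rfl⟩
      exact hB.smul_mem h ha

theorem projClosed_pt {v : κ → ℂ} (hv : v ≠ 0) : ProjClosed (pt v) := by
  classical
  obtain ⟨i, hi⟩ : ∃ i, v i ≠ 0 := by
    by_contra h
    push Not at h
    exact hv (funext h)
  refine ⟨{F | ∃ j, F = C (v i) * X j - C (v j) * X i}, ?_, ?_⟩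
  · rintro F ⟨j, rfl⟩
    exact ⟨1, (isHomogeneous_C_mul_X _ _).sub (isHomogeneous_C_mul_X _ _)⟩
  · ext w
    constructor
    · rintro ⟨a, ha, rfl⟩
      refine ⟨smul_ne_zero ha hv, ?_⟩
      rintro F ⟨j, rfl⟩
      simp only [map_sub, map_mul, eval_C, eval_X, Pi.smul_apply, smul_eq_mul]
      ring
    · rintro ⟨h0, h⟩
      have h1 : ∀ j, v i * w j = v j * w i := by
        intro j
        have := h _ ⟨j, rfl⟩
        simp only [map_sub, map_mul, eval_C, eval_X] at this
        exact sub_eq_zero.mp this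
      refine ⟨w i / v i, ?_, ?_⟩
      · intro hwi
        apply h0
        have hwi' : w i = 0 := by
          rw [div_eq_zero_iff] at hwi
          exact hwi.resolve_right hi
        funext j
        have := h1 j
        rw [hwi', mul_zero] at this
        exact (mul_eq_zero.mp this).resolve_left hi
      · funext j
        rw [Pi.smul_apply, smul_eq_mul, div_mul_eq_mul_div, eq_div_iff hi, mul_comm, h1 j,
          mul_comm]

/-- the vanishing ideal of a closed set is homogeneous -/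
theorem vanishingIdeal_comp {Z : Set (κ → ℂ)} (hZ : ProjClosed Z) {F : MvPolynomial κ ℂ}
    (hF : F ∈ vanishingIdeal ℂ Z) (n : ℕ) : homogeneousComponent n F ∈ vanishingIdeal ℂ Z := by
  intro v hv
  exact comp_eq_zero_of_line (fun a ha => hF _ (hZ.smul_mem hv ha)) n

theorem Irred.isPrime {Z : Set (κ → ℂ)} (hI : Irred Z) (hZ : ProjClosed Z) :
    (vanishingIdeal ℂ Z : Ideal (MvPolynomial κ ℂ)).IsPrime := by
  classical
  let _ : GradedAlgebra (homogeneousSubmodule κ ℂ) := MvPolynomial.gradedAlgebra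
  apply Ideal.IsHomogeneous.isPrime_of_homogeneous_mem_or_mem (𝒜 := homogeneousSubmodule κ ℂ)
  · intro i F hF
    have := vanishingIdeal_comp hZ hF i
    convert this using 1
    exact decomposition.decompose'_apply F i
  · intro h
    obtain ⟨v, hv⟩ := hI.1
    have h1 : (1 : MvPolynomial κ ℂ) ∈ vanishingIdeal ℂ Z := by rw [h]; trivial
    have := h1 v hv
    rw [map_one] at this
    exact one_ne_zero this
  · rintro F G ⟨m, hF⟩ ⟨n, hG⟩ hFG
    have hsub : Z ⊆ {v : κ → ℂ | v ≠ 0 ∧ eval v F = 0} ∪ {v | v ≠ 0 ∧ eval v G = 0} := by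
      intro v hv
      have h1 : eval v (F * G) = 0 := hFG v hv
      rw [map_mul, mul_eq_zero] at h1
      have hv0 := hI.2.1 v hv
      exact h1.imp (fun h => ⟨hv0, h⟩) (fun h => ⟨hv0, h⟩)
    rcases hI.2.2 _ _ (projClosed_zero F hF) (projClosed_zero G hG) hsub with h | h
    · left
      intro v hv
      exact (h hv).2
    · right
      intro v hv
      exact (h hv).2

theorem mem_of_vanishing {Z : Set (κ → ℂ)} (hZ : ProjClosed Z) {v : κ → ℂ} (hv : v ≠ 0)
    (h : ∀ F ∈ vanishingIdeal ℂ Z, eval v F = 0) : v ∈ Z := by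
  obtain ⟨S, hS, rfl⟩ := hZ
  exact ⟨hv, fun F hF => h F fun w hw => hw.2 F hF⟩

/-- two polynomials which do not vanish identically on an irreducible closed set are both nonzero
at some point of it -/
theorem Irred.exists_ne {Z : Set (κ → ℂ)} (hI : Irred Z) (hZ : ProjClosed Z)
    {F G : MvPolynomial κ ℂ} (hF : ∃ v ∈ Z, eval v F ≠ 0) (hG : ∃ v ∈ Z, eval v G ≠ 0) :
    ∃ v ∈ Z, eval v F ≠ 0 ∧ eval v G ≠ 0 := by
  have := hI.isPrime hZ
  by_contra h
  push Not at h
  have h1 : F * G ∈ vanishingIdeal ℂ Z := by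
    intro v hv
    rw [map_mul]
    by_cases h2 : eval v F = 0
    · exact mul_eq_zero_of_left h2 _
    · exact mul_eq_zero_of_right _ (h v hv h2)
  rcases this.mem_or_mem h1 with h2 | h2
  · obtain ⟨v, hv, hv'⟩ := hF
    exact hv' (h2 v hv)
  · obtain ⟨v, hv, hv'⟩ := hG
    exact hv' (h2 v hv)

/-- an irreducible closed set is contained in a closed set which contains all its points outside
the zeros of a polynomial -/
theorem Irred.subset_of_generic {M Z : Set (κ → ℂ)} (hI : Irred M) (hM : ProjClosed M)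
    (hZ : ProjClosed Z) {G : MvPolynomial κ ℂ} (hG : ∃ v ∈ M, eval v G ≠ 0)
    (h : ∀ v ∈ M, eval v G ≠ 0 → v ∈ Z) : M ⊆ Z := by
  intro v hv
  refine mem_of_vanishing hZ (hI.2.1 v hv) fun F hF => ?_
  by_contra hFv
  obtain ⟨w, hw, hw1, hw2⟩ := hI.exists_ne hM ⟨v, hv, hFv⟩ hG
  exact hw1 (hF w (h w hw hw2))

/-- existence of irreducible components -/
theorem exists_component {S : Set (κ → ℂ)} (h0 : ∀ v ∈ S, v ≠ 0) (hne : S.Nonempty) :
    ∃ M, Component M S := by
  obtain ⟨v, hv⟩ := hne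
  have hv1 : Irred ({v} : Set (κ → ℂ)) := by
    refine ⟨⟨v, rfl⟩, ?_, fun A B _ _ hAB => ?_⟩
    · rintro w rfl
      exact h0 _ hv
    · rcases hAB (Set.mem_singleton v) with h | h
      · exact Or.inl (Set.singleton_subset_iff.mpr h)
      · exact Or.inr (Set.singleton_subset_iff.mpr h)
  have hz : ∀ c ⊆ {M : Set (κ → ℂ) | M ⊆ S ∧ Irred M}, IsChain (· ⊆ ·) c → c.Nonempty →
      ∃ ub ∈ {M : Set (κ → ℂ) | M ⊆ S ∧ Irred M}, ∀ s ∈ c, s ⊆ ub := by
    intro c hc hchain hcne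
    refine ⟨⋃₀ c, ⟨?_, ?_, ?_, ?_⟩, fun s hs => Set.subset_sUnion_of_mem hs⟩
    · exact Set.sUnion_subset fun s hs => (hc hs).1
    · obtain ⟨s, hs⟩ := hcne
      obtain ⟨w, hw⟩ := (hc hs).2.1
      exact ⟨w, s, hs, hw⟩
    · rintro w ⟨s, hs, hw⟩
      exact (hc hs).2.2.1 w hw
    · intro A B hA hB hAB
      by_contra hcon
      push Not at hcon
      obtain ⟨hcA, hcB⟩ := hcon
      obtain ⟨x, ⟨s, hs, hxs⟩, hxA⟩ := Set.not_subset.mp hcA
      obtain ⟨y, ⟨t, ht, hyt⟩, hyB⟩ := Set.not_subset.mp hcB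
      rcases hchain.total hs ht with hst | hts
      · rcases (hc ht).2.2.2 A B hA hB ((Set.subset_sUnion_of_mem ht).trans hAB) with h | h
        · exact hxA (h (hst hxs))
        · exact hyB (h hyt)
      · rcases (hc hs).2.2.2 A B hA hB ((Set.subset_sUnion_of_mem hs).trans hAB) with h | h
        · exact hxA (h hxs)
        · exact hyB (h (hts hyt))
  obtain ⟨M, -, hM⟩ := zorn_subset_nonempty {M : Set (κ → ℂ) | M ⊆ S ∧ Irred M} hz {v}
    ⟨Set.singleton_subset_iff.mpr hv, hv1⟩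
  refine ⟨M, hM.prop.1, hM.prop.2, fun M' h1 h2 h3 => ?_⟩
  exact hM.le_of_ge ⟨h1, h2⟩ h3

theorem Component.closed {M S : Set (κ → ℂ)} (h : Component M S) (hS : ProjClosed S) :
    ProjClosed M := by
  have h1 : projClosure M ⊆ M :=
    h.2.2 _ (projClosure_subset hS h.1) h.2.1.projClosure (subset_projClosure h.2.1.2.1)
  have h2 : M = projClosure M :=
    Set.Subset.antisymm (subset_projClosure h.2.1.2.1) h1
  rw [h2]
  exact projClosed_projClosure M

end Pool.Agent.Helper845_Sec
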