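import Pool.Agent.Helper845_Sec.Gen

/-!
# Spaces of sections: minimal degree, evaluation maps
-/

namespace Pool.Agent.Helper845_Sec

open MvPolynomial

section

variable {ι : Type} [Finite ι] {X : Set ((Fin 2 → ℂ) × (ι → ℂ))}

/-- the linear forms which give the value of a section at the point `b` -/
noncomputable def lin (d : ℕ) (b : Fin 2 → ℂ) (i : ι) : MvPolynomial (ι × Fin (d + 1)) ℂ :=
  ∑ j : Fin (d + 1), C (b 0 ^ (j : ℕ) * b 1 ^ (d - (j : ℕ))) * MvPolynomial.X (i, j)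

omit [Finite ι] in
theorem lin_homog (d : ℕ) (b : Fin 2 → ℂ) (i : ι) : (lin d b i).IsHomogeneous 1 :=
  IsHomogeneous.sum _ _ _ fun _ _ => isHomogeneous_C_mul_X _ _

omit [Finite ι] in
theorem eval_lin {d : ℕ} (b : Fin 2 → ℂ) (c : ι × Fin (d + 1) → ℂ) (i : ι) :
    eval c (lin d b i) = ev c b i := by
  rw [lin, map_sum, ev]
  refine Finset.sum_congr rfl fun j _ => ?_
  rw [map_mul, eval_C, eval_X]
  ring

omit [Finite ι] in
theorem eval_lin' {d : ℕ} (b : Fin 2 → ℂ) (c : ι × Fin (d + 1) → ℂ) :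
    (fun i => eval c (lin d b i)) = ev c b := by
  funext i
  rw [eval_lin]

omit [Finite ι] in
theorem smul_mem_biClosed (hX : BiClosed X) {b : Fin 2 → ℂ} {x : ι → ℂ} (h : (b, x) ∈ X) {a : ℂ}
    (ha : a ≠ 0) : (b, a • x) ∈ X := by
  obtain ⟨S, hS, rfl⟩ := hX
  refine ⟨h.1, smul_ne_zero ha h.2.1, fun F hF => ?_⟩
  obtain ⟨p, q, hpq⟩ := hS F hF
  have h1 := hpq 1 a b x
  rw [one_smul] at h1
  change eval (Sum.elim b (a • x)) F = 0
  rw [h1, h.2.2 F hF, mul_zero]

omit [Finite ι] in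
theorem fib_closed (hX : BiClosed X) {b : Fin 2 → ℂ} (hb : b ≠ 0) : ProjClosed (fib X b) := by
  have hX' := hX
  obtain ⟨S, hS, hXS⟩ := hX
  refine closed_of_cone (fun v hv a ha => smul_mem_biClosed hX' hv ha)
    {G | ∃ F ∈ S, G = aeval (Sum.elim (fun i => C (b i)) MvPolynomial.X) F} ?_
  have h1 : ∀ (F : MvPolynomial (Fin 2 ⊕ ι) ℂ) (v : ι → ℂ),
      eval v (aeval (Sum.elim (fun i => C (b i)) MvPolynomial.X) F) = eval (Sum.elim b v) F := by
    intro F v
    rw [eval_aeval]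
    congr 2
    funext i
    rcases i with i | i
    · simp
    · simp
  ext v
  constructor
  · intro hv
    have hv' : (b, v) ∈ X := hv
    rw [hXS] at hv'
    refine ⟨hv'.2.1, ?_⟩
    rintro _ ⟨F, hF, rfl⟩
    rw [h1]
    exact hv'.2.2 F hF
  · rintro ⟨hv0, hv⟩
    change (b, v) ∈ X
    rw [hXS]
    refine ⟨hb, hv0, fun F hF => ?_⟩
    have := hv _ ⟨F, hF, rfl⟩
    rwa [h1] at this

omit [Finite ι] in
theorem sec_ev_ne {d : ℕ} (hX : BiClosed X) {c : ι × Fin (d + 1) → ℂ} (hc : c ∈ Sec X d)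
    {b : Fin 2 → ℂ} (hb : b ≠ 0) : ev c b ≠ 0 := by
  obtain ⟨S, -, rfl⟩ := hX
  exact (hc b hb).2.1

omit [Finite ι] in
theorem sec_ne_zero {d : ℕ} (hX : BiClosed X) {c : ι × Fin (d + 1) → ℂ} (hc : c ∈ Sec X d) :
    c ≠ 0 := by
  rintro rfl
  have hb : (fun _ => 1 : Fin 2 → ℂ) ≠ 0 := fun h => one_ne_zero (congrFun h 0)
  exact sec_ev_ne hX hc hb ((ev_zero_iff _).mpr rfl _)

/-- the space of sections of minimal degree is closed in projective space -/
theorem sec_closed (hX : BiClosed X) {d : ℕ} (hd : ∀ d' < d, ¬ (Sec X d').Nonempty) :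
    ProjClosed (Sec X d) := by
  have hX' := hX
  obtain ⟨S, hS, hXS⟩ := hX
  refine closed_of_cone ?_ {G | ∃ F ∈ S, ∃ b : Fin 2 → ℂ, b ≠ 0 ∧
    G = aeval (Sum.elim (fun i => C (b i)) (lin d b)) F} ?_
  · intro c hc a ha b hb
    rw [ev_smul_left]
    exact smul_mem_biClosed hX' (hc b hb) ha
  have h1 : ∀ (F : MvPolynomial (Fin 2 ⊕ ι) ℂ) (b : Fin 2 → ℂ) (c : ι × Fin (d + 1) → ℂ),
      eval c (aeval (Sum.elim (fun i => C (b i)) (lin d b)) F) =
        eval (Sum.elim b (ev c b)) F := by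
    intro F b c
    rw [eval_aeval]
    congr 2
    funext i
    rcases i with i | i
    · simp
    · simp [eval_lin]
  ext c
  constructor
  · intro hc
    refine ⟨sec_ne_zero hX' hc, ?_⟩
    rintro _ ⟨F, hF, b, hb, rfl⟩
    rw [h1]
    have h2 := hc b hb
    rw [hXS] at h2
    exact h2.2.2 F hF
  · rintro ⟨hc0, hc⟩
    obtain ⟨e', ψ, g, he', hg, hg0, hψ, hcψ⟩ := exists_primitive c hc0
    have hψS : ψ ∈ Sec X e' := by
      intro b hb
      rw [hXS]
      refine ⟨hb, hψ b hb, fun F hF => ?_⟩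
      obtain ⟨p, q, hpq⟩ := hS F hF
      let P : MvPolynomial (Fin 2) ℂ := aeval (Sum.elim MvPolynomial.X (form ψ)) F
      have hP : ∀ w, eval w P = eval (Sum.elim w (ev ψ w)) F := by
        intro w
        change eval w (aeval _ F) = _
        rw [eval_aeval]
        congr 2
        funext i
        rcases i with i | i
        · simp
        · simp [ev_eq_form]
      have h2 : g ^ q * P * MvPolynomial.X 0 = 0 := by
        apply MvPolynomial.funext
        intro w
        rw [map_mul, map_mul, map_pow, eval_X, map_zero, hP]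
        by_cases hw : w = 0
        · rw [hw, Pi.zero_apply, mul_zero]
        · have h3 := hc _ ⟨F, hF, w, hw, rfl⟩
          rw [h1, hcψ w] at h3
          have h4 := hpq 1 (eval w g) w (ev ψ w)
          rw [one_smul, one_pow, one_mul] at h4
          rw [← h4, h3, zero_mul]
      rw [mul_eq_zero, mul_eq_zero] at h2
      have h3 : P = 0 := by
        rcases h2 with (h2 | h2) | h2
        · exact absurd h2 (pow_ne_zero _ hg0)
        · exact h2
        · exact absurd h2 (X_ne_zero 0)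
      rw [← hP, h3, map_zero]
    have he : e' = d := by
      by_contra hne
      exact hd e' (lt_of_le_of_ne he' hne) ⟨ψ, hψS⟩
    subst he
    rw [Nat.sub_self] at hg
    have hg' := totalDegree_eq_zero_iff_eq_C.mp (Nat.le_zero.mp hg.totalDegree_le)
    intro b hb
    rw [hcψ b]
    refine smul_mem_biClosed hX' (hψS b hb) ?_
    rw [hg', eval_C]
    intro h
    rw [h, map_zero] at hg'
    exact hg0 hg'

/-- there is a complete component of the space of sections -/
theorem exists_complete (hX : BiClosed X) (h : ∃ d, (Sec X d).Nonempty) :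
    ∃ d M, Component M (Sec X d) ∧ ProjClosed M := by
  classical
  obtain ⟨M, hM⟩ := exists_component (fun v hv => sec_ne_zero hX hv) (Nat.find_spec h)
  exact ⟨_, M, hM, hM.closed (sec_closed hX fun d' hd' => Nat.find_min h hd')⟩

/-- the image of a set of sections under the evaluation at `b` -/
def evImg {d : ℕ} (Z : Set (ι × Fin (d + 1) → ℂ)) (b : Fin 2 → ℂ) : Set (ι → ℂ) :=
  {y | ∃ v ∈ Z, y = ev v b}

omit [Finite ι] in
theorem evImg_eq {d : ℕ} (Z : Set (ι × Fin (d + 1) → ℂ)) (b : Fin 2 → ℂ) :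
    evImg Z b = {y | ∃ v ∈ Z, y = fun i => eval v (lin d b i)} := by
  ext y
  simp only [evImg, Set.mem_ofPred_eq, eval_lin']

omit [Finite ι] in
theorem lin_zeros (hX : BiClosed X) {d : ℕ} {Z : Set (ι × Fin (d + 1) → ℂ)}
    (hZX : Z ⊆ Sec X d) {b : Fin 2 → ℂ} (hb : b ≠ 0) : ∀ v ∈ Z, ∃ i, eval v (lin d b i) ≠ 0 := by
  intro v hv
  by_contra hcon
  push Not at hcon
  apply sec_ev_ne hX (hZX hv) hb
  funext i
  rw [← eval_lin, hcon i]
  rfl

theorem evImg_closed (hX : BiClosed X) {d : ℕ} {Z : Set (ι × Fin (d + 1) → ℂ)}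
    (hZ : ProjClosed Z) (hZX : Z ⊆ Sec X d) {b : Fin 2 → ℂ} (hb : b ≠ 0) :
    ProjClosed (evImg Z b) := by
  rw [evImg_eq]
  exact image_closed hZ _ one_ne_zero (lin_homog d b) (lin_zeros hX hZX hb)

omit [Finite ι] in
theorem evImg_irred (hX : BiClosed X) {d : ℕ} {Z : Set (ι × Fin (d + 1) → ℂ)}
    (hZ : ProjClosed Z) (hI : Irred Z) (hZX : Z ⊆ Sec X d) {b : Fin 2 → ℂ} (hb : b ≠ 0) :
    Irred (evImg Z b) := by
  rw [evImg_eq]
  exact image_irred hZ hI _ (lin_homog d b) (lin_zeros hX hZX hb)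

theorem evImg_ssubset (hX : BiClosed X) {d : ℕ} {Z Z' : Set (ι × Fin (d + 1) → ℂ)}
    (hZ : ProjClosed Z) (hI : Irred Z) (hZX : Z ⊆ Sec X d) (hZ' : ProjClosed Z') (hlt : Z' ⊂ Z)
    {b : Fin 2 → ℂ} (hb : b ≠ 0) : evImg Z' b ⊂ evImg Z b := by
  rw [evImg_eq, evImg_eq]
  exact image_ne hZ hI hZ' hlt _ one_ne_zero (lin_homog d b) (lin_zeros hX hZX hb)

omit [Finite ι] in
theorem evImg_subset_fib {d : ℕ} {Z : Set (ι × Fin (d + 1) → ℂ)}
    (hZX : Z ⊆ Sec X d) {b : Fin 2 → ℂ} (hb : b ≠ 0) : evImg Z b ⊆ fib X b := by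
  rintro y ⟨v, hv, rfl⟩
  exact hZX hv b hb

theorem dim_le (hX : BiClosed X) {d n : ℕ} {M : Set (ι × Fin (d + 1) → ℂ)}
    (hMX : M ⊆ Sec X d) {b : Fin 2 → ℂ} (hb : b ≠ 0) (h : DimLE n (fib X b)) : DimLE n M := by
  intro k C hC hprop
  refine h k (fun i => evImg (C i) b) ?_ ?_
  · intro i j hij
    exact evImg_ssubset hX (hprop j).1 (hprop j).2.1 ((hprop j).2.2.trans hMX) (hprop i).1
      (hC hij) hb
  · intro i
    have hs := (hprop i).2.2.trans hMX
    exact ⟨evImg_closed hX (hprop i).1 hs hb, evImg_irred hX (hprop i).1 (hprop i).2.1 hs hb,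
      evImg_subset_fib hs hb⟩

/-- if the dimension of `M` is at least two, and the dimension of the irreducible fibre is at most
two then the evaluation map is surjective -/
theorem evImg_eq_fib (hX : BiClosed X) {d : ℕ} {M : Set (ι × Fin (d + 1) → ℂ)}
    (hMX : M ⊆ Sec X d) {b : Fin 2 → ℂ} (hb : b ≠ 0)
    (hfib : Irred (fib X b)) (h : DimLE 2 (fib X b)) (hdim : ¬ DimLE 1 M) :
    evImg M b = fib X b := by
  by_contra hne
  have hlt : evImg M b ⊂ fib X b := (evImg_subset_fib hMX hb).ssubset_of_ne hne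
  unfold DimLE at hdim
  push Not at hdim
  obtain ⟨k, C, hC, hprop, hk⟩ := hdim
  have h1 := h (k + 1) (Fin.snoc (fun i => evImg (C i) b) (fib X b)) ?_ ?_
  · omega
  · rw [Fin.strictMono_iff_lt_succ]
    intro i
    rw [Fin.snoc_castSucc]
    induction i using Fin.lastCases with
    | last =>
      rw [Fin.succ_last, Fin.snoc_last]
      refine lt_of_le_of_lt ?_ hlt
      rintro y ⟨v, hv, rfl⟩
      exact ⟨v, (hprop _).2.2 hv, rfl⟩
    | cast j =>
      rw [Fin.succ_castSucc, Fin.snoc_castSucc]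
      exact evImg_ssubset hX (hprop _).1 (hprop _).2.1 ((hprop _).2.2.trans hMX) (hprop _).1
        (hC Fin.castSucc_lt_succ) hb
  · intro i
    induction i using Fin.lastCases with
    | last =>
      rw [Fin.snoc_last]
      exact ⟨fib_closed hX hb, hfib, subset_rfl⟩
    | cast i =>
      rw [Fin.snoc_castSucc]
      have hs := (hprop i).2.2.trans hMX
      exact ⟨evImg_closed hX (hprop i).1 hs hb, evImg_irred hX (hprop i).1 (hprop i).2.1 hs hb,
        evImg_subset_fib hs hb⟩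

end

end Pool.Agent.Helper845_Sec
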