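import Pool.Agent.Helper845_Sec.Proj

/-!
# Finite morphisms of projective varieties: integrality, closed images, incomparability
-/

namespace Pool.Agent.Helper845_Sec

open MvPolynomial Topology

/-- if some power `x k ^ m` of every generator `x k` is a combination of monomials of total degree
less than `m`, then the generators are integral -/
theorem integral_of_rel {A D : Type*} [CommRing A] [CommRing D] [Algebra A D] {κ : Type*} [Finite κ]
    (x : κ → D) (m : ℕ)
    (hrel : ∀ k, ∃ P : MvPolynomial κ A, P.totalDegree < m ∧ x k ^ m = aeval x P) (k : κ) :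
    IsIntegral A (x k) := by
  classical
  have := Fintype.ofFinite κ
  let mon : (κ →₀ ℕ) → D := fun a => aeval x (monomial a (1 : A))
  have hmon_add : ∀ a b, mon (a + b) = mon a * mon b := by
    intro a b
    simp only [mon]
    rw [← map_mul, monomial_mul, one_mul]
  let W : Submodule A D := Submodule.span A (mon '' {a | ∀ k, a k < m})
  have hW : ∀ n : ℕ, ∀ a : κ →₀ ℕ, a.degree = n → mon a ∈ W := by
    intro n
    induction n using Nat.strong_induction_on with
    | _ n ih =>
      intro a ha
      by_cases h : ∀ k, a k < m
      · exact Submodule.subset_span ⟨a, h, rfl⟩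
      · push Not at h
        obtain ⟨k, hk⟩ := h
        obtain ⟨b, hb⟩ : ∃ b, a = Finsupp.single k m + b := by
          refine ⟨a - Finsupp.single k m, ?_⟩
          rw [add_tsub_cancel_of_le]
          intro j
          by_cases hj : j = k
          · subst hj
            simpa using hk
          · simp [Ne.symm hj]
        obtain ⟨P, hP, hPx⟩ := hrel k
        have h1 : mon (Finsupp.single k m) = x k ^ m := by
          simp only [mon]
          rw [← X_pow_eq_monomial, map_pow, aeval_X]
        have h2 : mon a = ∑ d ∈ P.support, P.coeff d • mon (d + b) := by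
          rw [hb, hmon_add, h1, hPx]
          conv_lhs => rw [P.as_sum, map_sum, Finset.sum_mul]
          refine Finset.sum_congr rfl fun d _ => ?_
          rw [hmon_add, ← smul_mul_assoc]
          congr 1
          simp only [mon]
          rw [← map_smul, smul_monomial, smul_eq_mul, mul_one]
        rw [h2]
        refine Submodule.sum_mem _ fun d hd => Submodule.smul_mem _ _ ?_
        have hdeg : (d + b).degree < n := by
          have h3 : d.degree ≤ P.totalDegree := le_totalDegree hd
          have h4 : a.degree = m + b.degree := by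
            rw [hb, map_add, Finsupp.degree_single]
          rw [map_add]
          omega
        exact ih _ hdeg _ rfl
  have hfin : W.FG := by
    apply Submodule.fg_span
    apply Set.Finite.image
    refine Set.Finite.subset (Set.finite_Iic (Finsupp.equivFunOnFinite.symm fun _ => m)) ?_
    intro a ha j
    exact (ha j).le
  have hadj : Subalgebra.toSubmodule (Algebra.adjoin A (Set.range x)) ≤ W := by
    rw [Algebra.adjoin_eq_span, Submodule.span_le]
    intro y hy
    have : ∃ a, y = mon a := by
      induction hy using Submonoid.closure_induction with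
      | mem y hy =>
        obtain ⟨j, rfl⟩ := hy
        refine ⟨Finsupp.single j 1, ?_⟩
        simp only [mon]
        rw [← X_pow_eq_monomial, map_pow, aeval_X, pow_one]
      | one =>
        refine ⟨0, ?_⟩
        simp [mon]
      | mul y z _ _ hy hz =>
        obtain ⟨a, rfl⟩ := hy
        obtain ⟨b, rfl⟩ := hz
        exact ⟨a + b, (hmon_add a b).symm⟩
    obtain ⟨a, rfl⟩ := this
    exact hW _ a rfl
  have hadj' : W ≤ Subalgebra.toSubmodule (Algebra.adjoin A (Set.range x)) := by
    rw [Submodule.span_le]
    rintro _ ⟨a, -, rfl⟩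
    simp only [mon]
    rw [Algebra.adjoin_range_eq_range_aeval]
    exact ⟨_, rfl⟩
  have heq : Subalgebra.toSubmodule (Algebra.adjoin A (Set.range x)) = W := le_antisymm hadj hadj'
  exact IsIntegral.of_mem_of_fg _ (heq ▸ hfin) _ (Algebra.subset_adjoin (Set.mem_range_self k))

theorem comp_mul_homog {κ R : Type*} [CommRing R] {h g : MvPolynomial κ R} {D m : ℕ}
    (hg : g.IsHomogeneous D) (hm : D ≤ m) :
    homogeneousComponent m (h * g) = homogeneousComponent (m - D) h * g := by
  classical
  conv_lhs => rw [← sum_homogeneousComponent h, Finset.sum_mul, map_sum]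
  have h1 : ∀ n ∈ Finset.range (h.totalDegree + 1),
      homogeneousComponent m (homogeneousComponent n h * g) =
        if n = m - D then homogeneousComponent n h * g else 0 := by
    intro n _
    have h2 : (homogeneousComponent n h * g) ∈ homogeneousSubmodule κ R (n + D) :=
      (homogeneousComponent_isHomogeneous n h).mul hg
    rw [homogeneousComponent_of_mem h2]
    by_cases h3 : n = m - D
    · rw [if_pos h3, if_pos (by omega)]
    · rw [if_neg h3, if_neg (by omega)]
  rw [Finset.sum_congr rfl h1, Finset.sum_ite_eq']
  split_ifs with h4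
  · rfl
  · rw [Finset.mem_range, not_lt] at h4
    rw [homogeneousComponent_eq_zero _ _ (by omega), zero_mul]

section

variable {κ ι : Type} [Finite κ] [Finite ι]

/-- some power of every coordinate is a combination of the `g i` with homogeneous coefficients,
modulo the ideal of `Z`, if the `g i` have no common zero on `Z` -/
theorem exists_rel {Z : Set (κ → ℂ)} (hZ : ProjClosed Z) (g : ι → MvPolynomial κ ℂ) {D : ℕ}
    (hg : ∀ i, (g i).IsHomogeneous D) (h0 : ∀ v ∈ Z, ∃ i, eval v (g i) ≠ 0) :
    ∃ m : ℕ, D ≤ m ∧ ∀ k : κ, ∃ h : ι → MvPolynomial κ ℂ, (∀ i, (h i).IsHomogeneous (m - D)) ∧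
      ∀ v ∈ Z, v k ^ m = ∑ᶠ i, eval v (h i) * eval v (g i) := by
  classical
  have := Fintype.ofFinite κ
  have := Fintype.ofFinite ι
  let J : Ideal (MvPolynomial κ ℂ) := Ideal.span (Set.range g) ⊔ vanishingIdeal ℂ Z
  have hJ : ∀ k : κ, (X k : MvPolynomial κ ℂ) ∈ J.radical := by
    intro k
    rw [← vanishingIdeal_zeroLocus_eq_radical (K := ℂ)]
    intro v hv
    by_cases hv0 : v = 0
    · subst hv0
      simp
    · exfalso
      have hvZ : v ∈ Z := mem_of_vanishing hZ hv0 fun F hF => hv F (Ideal.mem_sup_right hF)
      obtain ⟨i, hi⟩ := h0 v hvZ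
      exact hi (hv (g i) (Ideal.mem_sup_left (Ideal.subset_span ⟨i, rfl⟩)))
  choose e he using hJ
  let m : ℕ := D + ∑ k, e k
  refine ⟨m, Nat.le_add_right _ _, fun k => ?_⟩
  have hek : e k ≤ m := le_trans (Finset.single_le_sum (f := e) (fun _ _ => Nat.zero_le _)
    (Finset.mem_univ k)) (Nat.le_add_left _ _)
  have hXm : (X k : MvPolynomial κ ℂ) ^ m ∈ J := J.pow_mem_of_pow_mem (he k) hek
  obtain ⟨a, ha, r, hr, har⟩ := Submodule.mem_sup.mp hXm
  obtain ⟨c, hc⟩ := Ideal.mem_span_range_iff_exists_fun.mp ha
  refine ⟨fun i => homogeneousComponent (m - D) (c i),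
    fun i => homogeneousComponent_isHomogeneous _ _, fun v hv => ?_⟩
  have h1 : (X k : MvPolynomial κ ℂ) ^ m =
      ∑ i, homogeneousComponent (m - D) (c i) * g i + homogeneousComponent m r := by
    have h2 : homogeneousComponent m ((X k : MvPolynomial κ ℂ) ^ m) = X k ^ m := by
      apply homogeneousComponent_eq_self
      exact isHomogeneous_X_pow k m
    rw [← h2, ← har, map_add, ← hc, map_sum]
    congr 1
    refine Finset.sum_congr rfl fun i _ => ?_
    exact comp_mul_homog (hg i) (Nat.le_add_right _ _)
  have h3 := congrArg (eval v) h1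
  rw [map_add, map_pow, eval_X, map_sum] at h3
  have h4 : eval v (homogeneousComponent m r) = 0 := vanishingIdeal_comp hZ hr m v hv
  rw [h4, add_zero] at h3
  rw [h3, finsum_eq_sum_of_fintype]
  refine Finset.sum_congr rfl fun i _ => ?_
  rw [map_mul]

end

end Pool.Agent.Helper845_Sec
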